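import Mathlib
import Pool.Agent.H911.QR.Alg

/-!
Transcendence degrees of points on hypersurfaces.
-/

set_option autoImplicit false

namespace Pool.Agent.H911.QD

open MvPolynomial
open Pool.Agent.H911.QR (hatc hatc_adjoin hatc_aeval exists_basis)

/-- a surjection of domains which does not lower the transcendence degree is injective -/
theorem surj_inj {K A B : Type} [Field K] [CommRing A] [IsDomain A] [CommRing B] [IsDomain B]
    [Algebra K A] [Algebra K B] (f : A →ₐ[K] B) (hf : Function.Surjective f)
    (hlt : Algebra.trdeg K A < Cardinal.aleph0) (h : Algebra.trdeg K A ≤ Algebra.trdeg K B) :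
    Function.Injective f := by
  obtain ⟨ι, x, hx⟩ := exists_isTranscendenceBasis' K B
  choose a ha using fun i => hf (x i)
  have h1 : AlgebraicIndependent K a := by
    refine AlgebraicIndependent.of_comp f ?_
    have : (⇑f ∘ a) = x := funext ha
    rw [this]
    exact hx.1
  have h2 : IsTranscendenceBasis K a :=
    h1.isTranscendenceBasis_of_trdeg_le hlt (h.trans hx.cardinalMk_eq_trdeg.ge)
  have h3 := h2.isAlgebraic
  rw [injective_iff_map_eq_zero]
  intro g hg
  by_contra hg0
  have h4 := Ideal.comap_ne_bot_of_algebraic_mem (R := Algebra.adjoin K (Set.range a))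
    (I := RingHom.ker f) hg0 hg (h3.isAlgebraic g)
  obtain ⟨r, hr, hr0⟩ := Submodule.exists_mem_ne_zero_of_ne_bot h4
  rw [Ideal.mem_comap, RingHom.mem_ker] at hr
  obtain ⟨r, hrr⟩ := r
  have hrr' : r ∈ (aeval a : MvPolynomial ι K →ₐ[K] A).range := by
    rw [← Algebra.adjoin_range_eq_range_aeval]
    exact hrr
  obtain ⟨P, hP⟩ := hrr'
  have hP' : aeval a P = r := hP
  have h5 : aeval x P = 0 := by
    have h6 : f (aeval a P) = 0 := by
      rw [hP']
      exact hr
    have h7 : f (aeval a P) = aeval (fun i => f (a i)) P := by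
      rw [← comp_aeval]
      rfl
    rw [h7] at h6
    have h8 : (fun i => f (a i)) = x := funext ha
    rwa [h8] at h6
  have h6 : P = 0 := (algebraicIndependent_iff.1 hx.1) P h5
  apply hr0
  apply Subtype.ext
  change r = 0
  rw [← hP', h6, map_zero]

/-- the coordinate ring of the cone -/
theorem cone_trdeg {K Ω : Type} [Field K] [Field Ω] [Algebra K Ω] {ι : Type} (x : ι → Ω) (a : ι)
    (ha : x a = 1) :
    Algebra.trdeg K (Algebra.adjoin K (Set.range x)) + 1 ≤
      Algebra.trdeg K (Algebra.adjoin K
        (Set.range fun j => (Polynomial.C (x j) * Polynomial.X : Polynomial Ω))) := by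
  obtain ⟨R, hR⟩ : ∃ R : Subalgebra K Ω, R = Algebra.adjoin K (Set.range x) := ⟨_, rfl⟩
  obtain ⟨xr, hxr⟩ : ∃ xr : ι → R, ∀ j, (xr j : Ω) = x j :=
    ⟨fun j => ⟨x j, by rw [hR]; exact Algebra.subset_adjoin ⟨j, rfl⟩⟩, fun _ => rfl⟩
  have hxa : xr a = 1 := Subtype.ext (by rw [hxr, ha]; rfl)
  rw [← hR]
  -- the cone inside of `R[T]`
  obtain ⟨B, hB⟩ : ∃ B : Subalgebra K (Polynomial R), B = Algebra.adjoin K
    (Set.range fun j => (Polynomial.C (xr j) * Polynomial.X : Polynomial R)) := ⟨_, rfl⟩
  have hBj : ∀ j, (Polynomial.C (xr j) * Polynomial.X : Polynomial R) ∈ B := by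
    intro j
    rw [hB]
    exact Algebra.subset_adjoin ⟨j, rfl⟩
  have hBX : (Polynomial.X : Polynomial R) ∈ B := by
    have h1 := hBj a
    rwa [hxa, map_one, one_mul] at h1
  have halg : Algebra.IsAlgebraic B (Polynomial R) := by
    have hX : IsAlgebraic B (Polynomial.X : Polynomial R) :=
      isAlgebraic_algebraMap (⟨_, hBX⟩ : B)
    have hC : ∀ r : R, IsAlgebraic B (Polynomial.C r : Polynomial R) := by
      have h1 : ∀ j, IsAlgebraic B (Polynomial.C (xr j) : Polynomial R) := by
        intro j
        refine IsAlgebraic.of_mul (mem_nonZeroDivisors_of_ne_zero Polynomial.X_ne_zero) hX ?_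
        rw [mul_comm]
        exact isAlgebraic_algebraMap (⟨_, hBj j⟩ : B)
      have h2 : ∀ P : MvPolynomial ι K, IsAlgebraic B (Polynomial.C (aeval xr P) : Polynomial R) := by
        intro P
        induction P using MvPolynomial.induction_on with
        | C c =>
          rw [aeval_C]
          exact isAlgebraic_algebraMap (algebraMap K B c)
        | add p q hp hq =>
          rw [map_add, map_add]
          exact hp.add hq
        | mul_X p j hp =>
          rw [map_mul, aeval_X, map_mul]
          exact hp.mul (h1 j)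
      intro r
      obtain ⟨r, hr⟩ := r
      have hr' : r ∈ (aeval x : MvPolynomial ι K →ₐ[K] Ω).range := by
        rw [← Algebra.adjoin_range_eq_range_aeval, ← hR]
        exact hr
      obtain ⟨P, hP⟩ := hr'
      have h3 : aeval xr P = ⟨r, hr⟩ := by
        apply Subtype.ext
        have h4 : R.val (aeval xr P) = aeval (fun j => R.val (xr j)) P := by
          rw [← comp_aeval]
          rfl
        have h5 : (fun j => R.val (xr j)) = x := funext hxr
        rw [h5] at h4
        exact h4.trans hP
      rw [← h3]
      exact h2 P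
    constructor
    intro p
    induction p using Polynomial.induction_on' with
    | add p q hp hq => exact hp.add hq
    | monomial n c =>
      rw [← Polynomial.C_mul_X_pow_eq_monomial]
      exact (hC c).mul (hX.pow n)
  have h1 := trdeg_add_eq K B (A := Polynomial R)
  rw [trdeg_eq_zero (R := B), add_zero] at h1
  have h2 := trdeg_add_eq K R (A := Polynomial R)
  rw [Polynomial.trdeg_of_isDomain] at h2
  rw [h2, ← h1]
  -- `B` is embedded in `Ω[T]`
  let φ : Polynomial R →ₐ[K] Polynomial Ω := Polynomial.mapAlgHom R.val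
  have hφ : Function.Injective φ := Polynomial.map_injective _ Subtype.val_injective
  have h3 : ∀ b : B, φ b ∈ Algebra.adjoin K
      (Set.range fun j => (Polynomial.C (x j) * Polynomial.X : Polynomial Ω)) := by
    rintro ⟨b, hb⟩
    have h4 : φ b ∈ B.map φ := ⟨b, hb, rfl⟩
    rw [hB, AlgHom.map_adjoin, ← Set.range_comp] at h4
    have h5 : (⇑φ ∘ fun j => (Polynomial.C (xr j) * Polynomial.X : Polynomial R)) =
        fun j => (Polynomial.C (x j) * Polynomial.X : Polynomial Ω) := by
      funext j
      change Polynomial.map _ (Polynomial.C (xr j) * Polynomial.X) = _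
      rw [Polynomial.map_mul, Polynomial.map_C, Polynomial.map_X]
      congr 2
      exact hxr j
    rw [h5] at h4
    exact h4
  exact trdeg_le_of_injective ((φ.comp B.val).codRestrict _ h3) (by
    intro b b' h
    apply Subtype.ext
    apply hφ
    exact congrArg Subtype.val h)

end Pool.Agent.H911.QD
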