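import Mathlib
import Pool.Agent.H911.QD.Trd

/-!
Points on irreducible hypersurfaces, and on their intersections with other hypersurfaces.
-/

set_option autoImplicit false

namespace Pool.Agent.H911.QD

open MvPolynomial
open Pool.Agent.H911.QR (hatc hatc_adjoin hatc_aeval exists_basis)

section

variable {K Ω : Type} [Field K] [Field Ω] [Algebra K Ω] {n : ℕ}

theorem cone_eval (x : Fin (n + 1) → Ω) {e : ℕ} {F : MvPolynomial (Fin (n + 1)) K}
    (hF : F.IsHomogeneous e) :
    aeval (fun j => (Polynomial.C (x j) * Polynomial.X : Polynomial Ω)) F =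
      Polynomial.C (aeval x F) * Polynomial.X ^ e := by
  rw [aeval_def, aeval_def, eval₂_eq', eval₂_eq', map_sum, Finset.sum_mul]
  apply Finset.sum_congr rfl
  intro α hα
  have h1 : ∑ j, α j = e := by
    have h2 := hF (mem_support_iff.1 hα)
    rw [Finsupp.weight_apply, Finsupp.sum_fintype _ _ (fun _ => by simp)] at h2
    simpa using h2
  simp only [mul_pow, Finset.prod_mul_distrib]
  rw [Finset.prod_pow_eq_pow_sum, h1, map_mul, map_prod]
  simp only [map_pow]
  rw [IsScalarTower.algebraMap_apply K Ω (Polynomial Ω), Polynomial.algebraMap_eq, mul_assoc]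

theorem trdeg_pol : Algebra.trdeg K (MvPolynomial (Fin (n + 1)) K) = ((n + 1 : ℕ) : Cardinal) := by
  rw [MvPolynomial.trdeg_of_isDomain]
  simp

theorem nat_of_lt {c : Cardinal} {m : ℕ} (h : c < (m : Cardinal)) : ∃ k : ℕ, c = k ∧ k < m := by
  obtain ⟨k, hk⟩ := Cardinal.lt_aleph0.1 (h.trans (Cardinal.natCast_lt_aleph0))
  rw [hk] at h
  exact ⟨k, hk, by exact_mod_cast h⟩

/-- the coordinate ring of a hypersurface -/
theorem quot_trdeg {F : MvPolynomial (Fin (n + 1)) K} (hp : Prime F) :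
    ∃ k : ℕ, Algebra.trdeg K (MvPolynomial (Fin (n + 1)) K ⧸ Ideal.span {F}) = k ∧ k < n + 1 := by
  have hprime : (Ideal.span {F}).IsPrime := (Ideal.span_singleton_prime hp.ne_zero).2 hp
  have hdom : IsDomain (MvPolynomial (Fin (n + 1)) K ⧸ Ideal.span {F}) :=
    Ideal.Quotient.isDomain _
  apply nat_of_lt
  by_contra hcon
  push Not at hcon
  rw [← trdeg_pol (K := K)] at hcon
  have h1 := surj_inj (Ideal.Quotient.mkₐ K (Ideal.span {F})) (Ideal.Quotient.mkₐ_surjective K _)
    (by rw [trdeg_pol]; exact Cardinal.natCast_lt_aleph0) hcon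
  apply hp.ne_zero
  apply h1
  rw [map_zero]
  exact Ideal.Quotient.eq_zero_iff_mem.2 (Ideal.mem_span_singleton_self F)

/-- the map from the coordinate ring of a hypersurface to the one of the cone over a point -/
theorem quot_map {e : ℕ} {F : MvPolynomial (Fin (n + 1)) K} (hF : F.IsHomogeneous e)
    (x : Fin (n + 1) → Ω) (hx : aeval x F = 0) :
    ∃ ψ : (MvPolynomial (Fin (n + 1)) K ⧸ Ideal.span {F}) →ₐ[K] Algebra.adjoin K
      (Set.range fun j => (Polynomial.C (x j) * Polynomial.X : Polynomial Ω)),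
      Function.Surjective ψ ∧ ∀ G : MvPolynomial (Fin (n + 1)) K,
        ((ψ (Ideal.Quotient.mk _ G) : Algebra.adjoin K
      (Set.range fun j => (Polynomial.C (x j) * Polynomial.X : Polynomial Ω))) : Polynomial Ω) =
          aeval (fun j => (Polynomial.C (x j) * Polynomial.X : Polynomial Ω)) G := by
  obtain ⟨v, hv⟩ : ∃ v : Fin (n + 1) → Polynomial Ω, v = fun j =>
    (Polynomial.C (x j) * Polynomial.X : Polynomial Ω) := ⟨_, rfl⟩
  rw [← hv]
  have h1 : ∀ G ∈ Ideal.span {F}, aeval (hatc K v) G = 0 := by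
    intro G hG
    obtain ⟨H, rfl⟩ := Ideal.mem_span_singleton.1 hG
    have h2 : aeval (hatc K v) F = 0 := by
      apply Subtype.ext
      rw [hatc_aeval, hv, cone_eval x hF, hx, map_zero, zero_mul]
      rfl
    rw [map_mul, h2, zero_mul]
  refine ⟨Ideal.Quotient.liftₐ _ (aeval (hatc K v)) h1, ?_, ?_⟩
  · have hsur : Function.Surjective (aeval (hatc K v) : MvPolynomial (Fin (n + 1)) K →ₐ[K]
        Algebra.adjoin K (Set.range v)) := by
      rw [← AlgHom.range_eq_top, ← Algebra.adjoin_range_eq_range_aeval, hatc_adjoin]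
    intro b
    obtain ⟨G, rfl⟩ := hsur b
    exact ⟨Ideal.Quotient.mk _ G, rfl⟩
  · intro G
    rw [← hatc_aeval]
    rfl

/-- a point on an irreducible hypersurface -/
theorem hyp_trdeg {e : ℕ} {F : MvPolynomial (Fin (n + 1)) K} (hF : F.IsHomogeneous e)
    (hp : Prime F) (x : Fin (n + 1) → Ω) (a : Fin (n + 1)) (ha : x a = 1)
    (hx : aeval x F = 0) :
    ∃ k : ℕ, Algebra.trdeg K (Algebra.adjoin K (Set.range x)) = k ∧ k + 1 ≤ n := by
  obtain ⟨ψ, hψ, -⟩ := quot_map hF x hx
  obtain ⟨k, hk, hkn⟩ := quot_trdeg hp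
  have h1 := (cone_trdeg (K := K) x a ha).trans (trdeg_le_of_surjective ψ hψ)
  rw [hk] at h1
  have h2 : Algebra.trdeg K (Algebra.adjoin K (Set.range x)) ≤ ((k : ℕ) : Cardinal) :=
    le_self_add.trans h1
  obtain ⟨k', hk', -⟩ := nat_of_lt (h2.trans_lt (show ((k : ℕ) : Cardinal) < ((k + 1 : ℕ) : Cardinal)
    by exact_mod_cast Nat.lt_succ_self k))
  refine ⟨k', hk', ?_⟩
  rw [hk'] at h1
  have h3 : k' + 1 ≤ k := by exact_mod_cast h1
  omega

/-- a point on the intersection of an irreducible hypersurface and another one -/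
theorem hyp_trdeg2 {e e' : ℕ} {F : MvPolynomial (Fin (n + 1)) K} (hF : F.IsHomogeneous e)
    (hp : Prime F) (x : Fin (n + 1) → Ω) (a : Fin (n + 1)) (ha : x a = 1)
    (hx : aeval x F = 0) (G : MvPolynomial (Fin (n + 1)) K) (hG : G.IsHomogeneous e')
    (hFG : ¬ F ∣ G) (hxG : aeval x G = 0) :
    ∃ k : ℕ, Algebra.trdeg K (Algebra.adjoin K (Set.range x)) = k ∧ k + 2 ≤ n := by
  have hprime : (Ideal.span {F}).IsPrime := (Ideal.span_singleton_prime hp.ne_zero).2 hp
  have hdom : IsDomain (MvPolynomial (Fin (n + 1)) K ⧸ Ideal.span {F}) :=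
    Ideal.Quotient.isDomain _
  obtain ⟨ψ, hψ, hψ2⟩ := quot_map hF x hx
  obtain ⟨k, hk, hkn⟩ := quot_trdeg hp
  have h0 : Algebra.trdeg K (Algebra.adjoin K
      (Set.range fun j => (Polynomial.C (x j) * Polynomial.X : Polynomial Ω))) <
      ((k : ℕ) : Cardinal) := by
    by_contra hcon
    push Not at hcon
    rw [← hk] at hcon
    have h1 := surj_inj ψ hψ (by rw [hk]; exact Cardinal.natCast_lt_aleph0) hcon
    apply hFG
    rw [← Ideal.mem_span_singleton, ← Ideal.Quotient.eq_zero_iff_mem]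
    apply h1
    rw [map_zero]
    apply Subtype.ext
    rw [hψ2, cone_eval x hG, hxG, map_zero, zero_mul]
    rfl
  obtain ⟨k2, hk2, hk2k⟩ := nat_of_lt h0
  have h1 := cone_trdeg (K := K) x a ha
  rw [hk2] at h1
  have h2 : Algebra.trdeg K (Algebra.adjoin K (Set.range x)) ≤ ((k2 : ℕ) : Cardinal) :=
    le_self_add.trans h1
  obtain ⟨k', hk', -⟩ := nat_of_lt (h2.trans_lt (show ((k2 : ℕ) : Cardinal) <
    ((k2 + 1 : ℕ) : Cardinal) by exact_mod_cast Nat.lt_succ_self k2))
  refine ⟨k', hk', ?_⟩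
  rw [hk'] at h1
  have h3 : k' + 1 ≤ k2 := by exact_mod_cast h1
  omega

end

end Pool.Agent.H911.QD
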