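import Mathlib
import Pool.Agent.H911.QD.Hyp

/-!
An irreducible hypersurface in a linear subspace of a projective space of at least the double
dimension, as a base locus.
-/

set_option autoImplicit false

namespace Pool.Agent.H911.QD

open MvPolynomial

/-- the inclusion of the index set -/
def emb {n N : ℕ} (h : n ≤ N) : Fin (n + 1) → Fin (N + 1) := Fin.castLE (by omega)

theorem emb_inj {n N : ℕ} (h : n ≤ N) : Function.Injective (emb h) := Fin.castLE_injective _

theorem emb_val {n N : ℕ} (h : n ≤ N) (j : Fin (n + 1)) : ((emb h j : Fin (N + 1)) : ℕ) = j := rfl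

theorem emb_surj {n N : ℕ} (h : n ≤ N) (i : Fin (N + 1)) (hi : (i : ℕ) ≤ n) :
    ∃ j, emb h j = i := ⟨⟨i, by omega⟩, Fin.ext rfl⟩

/-- the equations of the base locus -/
noncomputable def bq {K : Type} [Field K] {n N : ℕ} (h : n ≤ N) (e : ℕ)
    (F : MvPolynomial (Fin (n + 1)) K) :
    Unit ⊕ ({i : Fin (N + 1) // n < (i : ℕ)} × Fin (N + 1)) → MvPolynomial (Fin (N + 1)) K
  | Sum.inl _ => rename (emb h) F
  | Sum.inr p => X p.1.1 * X p.2 ^ (e - 1)

section

variable {K : Type} [Field K] {n N : ℕ} (h : n ≤ N) {e : ℕ} {F : MvPolynomial (Fin (n + 1)) K}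

theorem bq_hom (he : 1 ≤ e) (hF : F.IsHomogeneous e) (i) : (bq h e F i).IsHomogeneous e := by
  rcases i with _ | ⟨i, j⟩
  · exact hF.rename_isHomogeneous
  · have h1 := (isHomogeneous_X K i.1).mul ((isHomogeneous_X K j).pow (e - 1))
    have h2 : 1 + 1 * (e - 1) = e := by omega
    rwa [h2] at h1

theorem bq_zero {Ω : Type} [Field Ω] [Algebra K Ω] (x : Fin (N + 1) → Ω) (hx : x ≠ 0)
    (hq : ∀ i, aeval x (bq h e F i) = 0) :
    (∀ i : Fin (N + 1), n < (i : ℕ) → x i = 0) ∧ aeval (fun j => x (emb h j)) F = 0 := by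
  constructor
  · intro i hi
    obtain ⟨a, ha⟩ : ∃ a, x a ≠ 0 := by
      by_contra hcon
      push Not at hcon
      exact hx (funext hcon)
    have h1 := hq (Sum.inr (⟨i, hi⟩, a))
    change aeval x (X i * X a ^ (e - 1)) = 0 at h1
    rw [map_mul, map_pow, aeval_X, aeval_X] at h1
    rcases mul_eq_zero.1 h1 with h2 | h2
    · exact h2
    · exact absurd h2 (pow_ne_zero _ ha)
  · have h1 := hq (Sum.inl ())
    change aeval x (rename (emb h) F) = 0 at h1
    rw [aeval_rename] at h1
    exact h1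

theorem bq_of {Ω : Type} [Field Ω] [Algebra K Ω] (x : Fin (N + 1) → Ω)
    (h1 : ∀ i : Fin (N + 1), n < (i : ℕ) → x i = 0) (h2 : aeval (fun j => x (emb h j)) F = 0) (i) :
    aeval x (bq h e F i) = 0 := by
  rcases i with _ | ⟨i, j⟩
  · change aeval x (rename (emb h) F) = 0
    rw [aeval_rename]
    exact h2
  · change aeval x (X i.1 * X j ^ (e - 1)) = 0
    rw [map_mul, aeval_X, h1 i.1 i.2, zero_mul]

/-- the forms vanishing at a point with `n < i` -/
theorem range_eq {Ω : Type} [Field Ω] [Algebra K Ω] (x : Fin (N + 1) → Ω)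
    (h1 : ∀ i : Fin (N + 1), n < (i : ℕ) → x i = 0) :
    Algebra.adjoin K (Set.range x) = Algebra.adjoin K (Set.range fun j => x (emb h j)) := by
  apply le_antisymm
  · rw [Algebra.adjoin_le_iff]
    rintro _ ⟨i, rfl⟩
    by_cases hi : n < (i : ℕ)
    · rw [h1 i hi]
      exact zero_mem _
    · obtain ⟨j, rfl⟩ := emb_surj h i (by omega)
      exact Algebra.subset_adjoin ⟨j, rfl⟩
  · apply Algebra.adjoin_mono
    rintro _ ⟨j, rfl⟩
    exact ⟨_, rfl⟩

theorem card_gt : Fintype.card {i : Fin (N + 1) // n < (i : ℕ)} = N - n := by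
  have h1 : Function.Bijective (fun j : Fin (N - n) =>
      (⟨⟨n + 1 + (j : ℕ), by have := j.2; omega⟩, by simp only; omega⟩ :
        {i : Fin (N + 1) // n < (i : ℕ)})) := by
    constructor
    · intro a b hab
      have h2 := congrArg (fun z : {i : Fin (N + 1) // n < (i : ℕ)} => ((z.1 : Fin (N + 1)) : ℕ)) hab
      simp only at h2
      exact Fin.ext (by omega)
    · rintro ⟨i, hi⟩
      refine ⟨⟨(i : ℕ) - (n + 1), by have := i.2; omega⟩, ?_⟩
      apply Subtype.ext
      apply Fin.ext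
      simp only
      omega
  have h2 := Fintype.card_of_bijective h1
  rw [← h2, Fintype.card_fin]

/-- the Jacobian matrix -/
noncomputable def jac {Ω : Type} [Field Ω] [Algebra K Ω] (e : ℕ) (F : MvPolynomial (Fin (n + 1)) K)
    (x : Fin (N + 1) → Ω) :
    Matrix (Unit ⊕ ({i : Fin (N + 1) // n < (i : ℕ)} × Fin (N + 1))) (Fin (N + 1)) Ω :=
  Matrix.of fun i j => (aeval x (pderiv j (bq h e F i)) : Ω)

theorem jac_inr {Ω : Type} [Field Ω] [Algebra K Ω] (x : Fin (N + 1) → Ω) (a : Fin (N + 1))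
    (ha : x a = 1) (h1 : ∀ i : Fin (N + 1), n < (i : ℕ) → x i = 0)
    (i : {i : Fin (N + 1) // n < (i : ℕ)}) (j : Fin (N + 1)) :
    jac h e F x (Sum.inr (i, a)) j = if i.1 = j then 1 else 0 := by
  change aeval x (pderiv j (X i.1 * X a ^ (e - 1))) = _
  rw [pderiv_mul, map_add, map_mul, map_mul, map_pow, aeval_X, aeval_X, ha, one_pow, mul_one,
    h1 i.1 i.2, zero_mul, add_zero, pderiv_X, Pi.single_apply]
  by_cases hj : i.1 = j
  · subst hj
    simp
  · rw [if_neg hj, if_neg (fun h2 => hj h2), map_zero]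

theorem jac_inl {Ω : Type} [Field Ω] [Algebra K Ω] (x : Fin (N + 1) → Ω) (j : Fin (n + 1)) :
    jac h e F x (Sum.inl ()) (emb h j) = aeval (fun j => x (emb h j)) (pderiv j F) := by
  change aeval x (pderiv (emb h j) (rename (emb h) F)) = _
  rw [pderiv_rename (emb_inj h), aeval_rename]
  rfl

theorem jac_inl0 {Ω : Type} [Field Ω] [Algebra K Ω] (x : Fin (N + 1) → Ω) (j : Fin (N + 1))
    (hj : n < (j : ℕ)) :
    jac h e F x (Sum.inl ()) j = 0 := by
  change aeval x (pderiv j (rename (emb h) F)) = _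
  rw [pderiv_eq_zero_of_notMem_vars, map_zero]
  intro h1
  have h2 := vars_rename (emb h) F h1
  rw [Finset.mem_image] at h2
  obtain ⟨b, -, hb⟩ := h2
  rw [← hb, emb_val] at hj
  have := b.2
  omega

/-- the rank is at least the codimension of the linear subspace -/
theorem jac_rank {Ω : Type} [Field Ω] [Algebra K Ω] (x : Fin (N + 1) → Ω) (a : Fin (N + 1))
    (ha : x a = 1) (h1 : ∀ i : Fin (N + 1), n < (i : ℕ) → x i = 0) :
    N - n ≤ (jac h e F x).rank := by
  classical
  have h2 : ((jac h e F x).submatrix (fun i : {i : Fin (N + 1) // n < (i : ℕ)} => Sum.inr (i, a))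
      (fun i : {i : Fin (N + 1) // n < (i : ℕ)} => i.1)) = 1 := by
    ext i j
    rw [Matrix.submatrix_apply, jac_inr h x a ha h1, Matrix.one_apply]
    by_cases hij : i = j
    · rw [if_pos hij, if_pos (by rw [hij])]
    · rw [if_neg hij, if_neg (fun h3 => hij (Subtype.ext h3))]
  have h3 := Matrix.rank_submatrix_le (jac h e F x)
    (fun i : {i : Fin (N + 1) // n < (i : ℕ)} => Sum.inr (i, a))
    (fun i : {i : Fin (N + 1) // n < (i : ℕ)} => i.1)
  rw [h2, Matrix.rank_one, card_gt] at h3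
  exact h3

/-- at a smooth point of the hypersurface the rank is larger -/
theorem jac_rank2 {Ω : Type} [Field Ω] [Algebra K Ω] (x : Fin (N + 1) → Ω) (a : Fin (N + 1))
    (ha : x a = 1) (h1 : ∀ i : Fin (N + 1), n < (i : ℕ) → x i = 0) (j₀ : Fin (n + 1))
    (hj : aeval (fun j => x (emb h j)) (pderiv j₀ F) ≠ 0) :
    N - n + 1 ≤ (jac h e F x).rank := by
  classical
  obtain ⟨r, hr⟩ : ∃ r : Option {i : Fin (N + 1) // n < (i : ℕ)} →
      Unit ⊕ ({i : Fin (N + 1) // n < (i : ℕ)} × Fin (N + 1)), r = fun o =>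
        o.elim (Sum.inl ()) fun i => Sum.inr (i, a) := ⟨_, rfl⟩
  obtain ⟨c, hc⟩ : ∃ c : Option {i : Fin (N + 1) // n < (i : ℕ)} → Fin (N + 1), c = fun o =>
        o.elim (emb h j₀) fun i => i.1 := ⟨_, rfl⟩
  obtain ⟨v, hv⟩ : ∃ v : Option {i : Fin (N + 1) // n < (i : ℕ)} → Ω, v = fun o =>
        o.elim (aeval (fun j => x (emb h j)) (pderiv j₀ F)) fun _ => 1 := ⟨_, rfl⟩
  have h2 : (jac h e F x).submatrix r c = Matrix.diagonal v := by
    ext i j
    rw [Matrix.submatrix_apply, Matrix.diagonal_apply, hr, hc, hv]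
    rcases i with _ | i <;> rcases j with _ | j
    · simp only [Option.elim_none]
      rw [jac_inl, if_pos trivial]
    · simp only [Option.elim_none, Option.elim_some]
      rw [jac_inl0 h x _ j.2, if_neg (by simp)]
    · simp only [Option.elim_none, Option.elim_some]
      rw [jac_inr h x a ha h1, if_neg, if_neg (by simp)]
      intro h3
      have h4 := i.2
      rw [h3, emb_val] at h4
      have := j₀.2
      omega
    · simp only [Option.elim_some]
      rw [jac_inr h x a ha h1]
      by_cases hij : i = j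
      · rw [if_pos (by rw [hij]), if_pos (by rw [hij])]
      · rw [if_neg (fun h3 => hij (Subtype.ext h3)), if_neg (fun h3 => hij (Option.some.inj h3))]
  have h3 := Matrix.rank_submatrix_le (jac h e F x) r c
  rw [h2, Matrix.rank_diagonal] at h3
  have h4 : Fintype.card {i // v i ≠ 0} = N - n + 1 := by
    have h5 : ∀ i, v i ≠ 0 := by
      rintro (_ | i)
      · rw [hv]
        exact hj
      · rw [hv]
        exact one_ne_zero
    rw [Fintype.card_congr (Equiv.subtypeUnivEquiv h5), Fintype.card_option, card_gt]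
  rw [h4] at h3
  exact h3

/-- a nonzero partial derivative -/
theorem exists_deriv [CharZero K] (he : 1 ≤ e) (hF : F.IsHomogeneous e) (hF0 : F ≠ 0) :
    ∃ j, pderiv j F ≠ 0 := by
  by_contra hcon
  push Not at hcon
  have h1 := hF.sum_X_mul_pderiv
  rw [Finset.sum_eq_zero (fun j _ => by rw [hcon j, mul_zero])] at h1
  have h2 : (e : MvPolynomial (Fin (n + 1)) K) * F = 0 := by
    rw [← nsmul_eq_mul]
    exact h1.symm
  rcases mul_eq_zero.1 h2 with h3 | h3
  · have h4 : ((e : K) : K) = 0 := by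
      have h5 : (C (e : K) : MvPolynomial (Fin (n + 1)) K) = 0 := by
        rw [map_natCast]
        exact h3
      exact C_eq_zero.1 h5
    have : e = 0 := by exact_mod_cast h4
    omega
  · exact hF0 h3

/-- the pointwise condition -/
theorem base_pt [CharZero K] (hN : 2 * n ≤ N + 1) (he : 1 ≤ e)
    (hF : F.IsHomogeneous e) (hp : Prime F) (Ω : Type) [Field Ω] [Algebra K Ω]
    (x : Fin (N + 1) → Ω) (a : Fin (N + 1)) (ha : x a = 1)
    (hq : ∀ i, aeval x (bq h e F i) = 0) :
    Algebra.trdeg K (Algebra.adjoin K (Set.range x)) <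
      (((Matrix.of fun i j => (aeval x (pderiv j (bq h e F i)) : Ω)).rank : ℕ) : Cardinal) := by
  have hx0 : x ≠ 0 := by
    intro h1
    rw [h1] at ha
    exact zero_ne_one ha
  obtain ⟨h1, h2⟩ := bq_zero h x hx0 hq
  rw [range_eq h x h1]
  obtain ⟨b, hb⟩ := emb_surj h a (by
    by_contra hcon
    push Not at hcon
    rw [h1 a hcon] at ha
    exact zero_ne_one ha)
  have hb1 : x (emb h b) = 1 := by rw [hb, ha]
  change _ < (((jac h e F x).rank : ℕ) : Cardinal)
  by_cases hd : ∃ j, aeval (fun j => x (emb h j)) (pderiv j F) ≠ 0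
  · obtain ⟨j, hj⟩ := hd
    obtain ⟨k, hk, hkn⟩ := hyp_trdeg hF hp (fun j => x (emb h j)) b hb1 h2
    have h3 := jac_rank2 (e := e) h x a ha h1 j hj
    rw [hk]
    have h4 : k < (jac h e F x).rank := by omega
    exact_mod_cast h4
  · push Not at hd
    obtain ⟨j, hj⟩ := exists_deriv he hF hp.ne_zero
    obtain ⟨k, hk, hkn⟩ := hyp_trdeg2 hF hp (fun j => x (emb h j)) b hb1 h2 (pderiv j F)
      hF.pderiv (by
        rintro ⟨H, hH⟩
        have h3 := hF.pderiv (i := j)
        have h4 : (pderiv j F).totalDegree = e - 1 := h3.totalDegree hj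
        have hH0 : H ≠ 0 := by
          intro h5
          rw [h5, mul_zero] at hH
          exact hj hH
        have h5 : (pderiv j F).totalDegree = F.totalDegree + H.totalDegree := by
          rw [hH, totalDegree_mul_of_isDomain hp.ne_zero hH0]
        rw [h4, hF.totalDegree hp.ne_zero] at h5
        omega) (hd j)
    have h3 := jac_rank (e := e) (F := F) h x a ha h1
    rw [hk]
    have h4 : k < (jac h e F x).rank := by omega
    exact_mod_cast h4

end

end Pool.Agent.H911.QD
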