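import Pool.Agent.H911.QD.Model2

/-!
The exceptional set of a variety and of a hypersurface which contains a birational model of it.
-/

set_option autoImplicit false

namespace Pool.Agent.H911.QD

open MvPolynomial
open Pool.Agent.H911.QR (homb homb_hom homb_eval)
open Pool.Agent.N254.SQ (GenericPoint IsForm aeval_zero_of aeval_scale FiniteOff)
open Pool.Agent.W602.GT (coords SubVar)
open scoped LinearAlgebra.Projectivization

/-- extension by zero -/
def ext {n : ℕ} (N : ℕ) {Ω : Type} [CommRing Ω] (z : Fin (n + 1) → Ω) : Fin (N + 1) → Ω :=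
  fun i => if hi : (i : ℕ) < n + 1 then z ⟨i, hi⟩ else 0

theorem ext_smul {n : ℕ} (N : ℕ) {Ω : Type} [CommRing Ω] (c : Ω) (z : Fin (n + 1) → Ω) :
    ext N (c • z) = c • ext N z := by
  funext i
  rw [Pi.smul_apply]
  unfold ext
  split_ifs
  · rfl
  · rw [smul_zero]

theorem ext_apply {n : ℕ} {N : ℕ} (h : n ≤ N) {Ω : Type} [CommRing Ω] (z : Fin (n + 1) → Ω)
    (i : Fin (n + 1)) : ext N z ⟨i, by have := i.2; omega⟩ = z i := by
  unfold ext
  rw [dif_pos i.2]

theorem ext_zero {n : ℕ} (N : ℕ) {Ω : Type} [CommRing Ω] (z : Fin (n + 1) → Ω) :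
    ext N z 0 = z 0 := by
  unfold ext
  rw [dif_pos (by simp)]
  rfl

section

variable {n w : ℕ} (lam : Fin (w + 1 + 1) → Fin (n + 1) → ℚ)

/-- pull back of a form by the linear projection -/
noncomputable def ppull (N : ℕ) (G : MvPolynomial (Fin (N + 1)) ℂ) : MvPolynomial (Fin (n + 1)) ℂ :=
  aeval (ext N (proj lam (X : Fin (n + 1) → MvPolynomial (Fin (n + 1)) ℂ))) G

theorem ppull_eval (N : ℕ) (G : MvPolynomial (Fin (N + 1)) ℂ) {Ω : Type} [CommRing Ω]
    [Algebra ℂ Ω] (x : Fin (n + 1) → Ω) :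
    aeval x (ppull lam N G) = aeval (ext N (proj lam x)) G := by
  change ((aeval x).comp (aeval (ext N (proj lam X)))) G = _
  rw [comp_aeval]
  congr 2
  funext i
  unfold ext
  split_ifs
  · unfold proj
    rw [map_sum]
    refine Finset.sum_congr rfl fun j _ => ?_
    rw [map_mul, aeval_X, AlgHom.commutes]
  · rw [map_zero]

theorem ppull_hom (N : ℕ) {G : MvPolynomial (Fin (N + 1)) ℂ} {e : ℕ} (hG : G.IsHomogeneous e) :
    (ppull lam N G).IsHomogeneous e := by
  have h1 : (ppull lam N G).IsHomogeneous (1 * e) := by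
    refine hG.aeval _ fun i => ?_
    unfold ext
    split_ifs
    · unfold proj
      refine IsHomogeneous.sum _ _ _ fun j _ => ?_
      exact isHomogeneous_C_mul_X _ _
    · exact isHomogeneous_zero _ _ _
  rwa [one_mul] at h1

theorem ext_self {Ω : Type} [CommRing Ω] (z : Fin (w + 1 + 1) → Ω) : ext (w + 1) z = z := by
  funext i
  unfold ext
  rw [dif_pos i.2]

/-- homogenization of a given degree -/
noncomputable def homd (d : ℕ) (P : MvPolynomial (Fin (w + 1 + 1)) ℂ) :
    MvPolynomial (Fin (w + 1 + 1)) ℂ := X 0 ^ (d - P.totalDegree) * homb 0 P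

theorem homd_hom {d : ℕ} {P : MvPolynomial (Fin (w + 1 + 1)) ℂ} (h : P.totalDegree ≤ d) :
    (homd d P).IsHomogeneous d := by
  have h1 := ((isHomogeneous_X ℂ (0 : Fin (w + 1 + 1))).pow (d - P.totalDegree)).mul
    (homb_hom 0 P)
  have h2 : 1 * (d - P.totalDegree) + P.totalDegree = d := by omega
  rwa [h2] at h1

theorem homd_eval {Ω : Type} [Field Ω] [Algebra ℂ Ω] {d : ℕ}
    {P : MvPolynomial (Fin (w + 1 + 1)) ℂ} (h : P.totalDegree ≤ d) (z : Fin (w + 1 + 1) → Ω)
    (hz : z 0 ≠ 0) : aeval z (homd d P) = z 0 ^ d * aeval (fun i => z i / z 0) P := by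
  obtain ⟨z1, hz1⟩ : ∃ z1 : Fin (w + 1 + 1) → Ω, z1 = fun i => z i / z 0 := ⟨_, rfl⟩
  have hz2 : z = z 0 • z1 := by
    rw [hz1]
    funext i
    rw [Pi.smul_apply, smul_eq_mul, mul_div_cancel₀ _ hz]
  rw [← hz1]
  conv_lhs => rw [hz2]
  rw [aeval_scale (homd_hom h)]
  congr 1
  unfold homd
  have h1 : z1 0 = 1 := by
    rw [hz1]
    exact div_self hz
  rw [map_mul, map_pow, aeval_X, h1, one_pow, one_mul, homb_eval z1 h1]

theorem pull_finite {k : Type} [Field k] [Algebra k ℂ]
    (S : Set (MvPolynomial (Fin (n + 1)) k))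
    {L : Type} [Field L] [Algebra ℂ L] (y : Fin (n + 1) → L)
    (hgp : GenericPoint S L w y) (b : Fin (n + 1)) (hb : y b ≠ 0)
    (hp0 : ∀ (Ω : Type) [Field Ω] [Algebra ℂ Ω] (x : Fin (n + 1) → Ω), proj lam x 0 = x b)
    (hcoords : coords ℂ (proj lam y) = ⊤) (N : ℕ) (hN : w + 1 ≤ N)
    (A G : MvPolynomial (Fin (N + 1)) ℂ)
    (hA : ∀ x : Fin (n + 1) → ℂ, (∀ p ∈ S, aeval x p = 0) → eval (ext N (proj lam x)) A = 0)
    (hG : IsForm G) (hGA : FiniteOff {A} G) (hyG : aeval (ext N (proj lam y)) G ≠ 0) :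
    ∃ G' : MvPolynomial (Fin (n + 1)) ℂ, IsForm G' ∧ aeval y G' ≠ 0 ∧
      FiniteOff (map (algebraMap k ℂ) '' S) G' := by
  classical
  have hz0 : proj lam y 0 ≠ 0 := by
    rw [hp0]
    exact hb
  -- the coordinates are rational functions of the projection
  have h1 : ∀ j, ∃ r s : MvPolynomial (Fin (w + 1 + 1)) ℂ,
      aeval (fun i => proj lam y i / proj lam y 0) s ≠ 0 ∧
      y j * aeval (fun i => proj lam y i / proj lam y 0) s =
        y b * aeval (fun i => proj lam y i / proj lam y 0) r := by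
    intro j
    have h2 : y j / y b ∈ IntermediateField.adjoin ℂ
        (Set.range fun i => proj lam y i / proj lam y 0) := by
      rw [← coords_affine _ 0 hz0, hcoords]
      trivial
    rw [IntermediateField.mem_adjoin_range_iff] at h2
    obtain ⟨r, s, hrs⟩ := h2
    by_cases hs : aeval (fun i => proj lam y i / proj lam y 0) s = 0
    · refine ⟨0, 1, ?_, ?_⟩
      · rw [map_one]
        exact one_ne_zero
      · rw [hs, div_zero] at hrs
        rw [map_one, mul_one, map_zero, mul_zero]
        rcases div_eq_zero_iff.1 hrs with h3 | h3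
        · exact h3
        · exact absurd h3 hb
    · refine ⟨r, s, hs, ?_⟩
      rw [div_eq_div_iff hb hs] at hrs
      rw [hrs, mul_comm]
  choose r s hs hrs using h1
  obtain ⟨d, hd⟩ : ∃ d : ℕ, ∀ j, (r j).totalDegree ≤ d ∧ (s j).totalDegree ≤ d := by
    refine ⟨∑ j, ((r j).totalDegree + (s j).totalDegree), fun j => ?_⟩
    have h2 := Finset.single_le_sum (f := fun j => (r j).totalDegree + (s j).totalDegree)
      (fun i _ => Nat.zero_le _) (Finset.mem_univ j)
    have h3 : (r j).totalDegree + (s j).totalDegree ≤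
      ∑ j, ((r j).totalDegree + (s j).totalDegree) := h2
    exact ⟨by omega, by omega⟩
  -- the relations
  have hrel : ∀ j, ∀ x : Fin (n + 1) → ℂ, (∀ p ∈ S, aeval x p = 0) →
      x j * eval (proj lam x) (homd d (s j)) = x b * eval (proj lam x) (homd d (r j)) := by
    intro j x hx
    have h2 : IsForm (X j * ppull lam (w + 1) (homd d (s j)) -
        X b * ppull lam (w + 1) (homd d (r j))) := by
      refine ⟨1 + d, ?_⟩
      exact ((isHomogeneous_X ℂ j).mul (ppull_hom lam _ (homd_hom (hd j).2))).sub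
        ((isHomogeneous_X ℂ b).mul (ppull_hom lam _ (homd_hom (hd j).1)))
    have h3 := hgp.all _ h2 (by
      rw [map_sub, map_mul, map_mul, aeval_X, aeval_X, ppull_eval, ppull_eval, ext_self,
        homd_eval (hd j).1 _ hz0, homd_eval (hd j).2 _ hz0]
      linear_combination (proj lam y 0) ^ d * hrs j) x hx
    have h4 : ∀ P : MvPolynomial (Fin (w + 1 + 1)) ℂ, eval x (ppull lam (w + 1) P) =
        eval (proj lam x) P := by
      intro P
      have h5 := ppull_eval lam (w + 1) P x
      rw [ext_self] at h5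
      exact h5
    rw [map_sub, map_mul, map_mul, eval_X, eval_X, h4, h4, sub_eq_zero] at h3
    exact h3
  obtain ⟨B, hB⟩ : ∃ B : MvPolynomial (Fin (w + 1 + 1)) ℂ, B = ∏ j, homd d (s j) := ⟨_, rfl⟩
  have hBhom : ∃ e, B.IsHomogeneous e := by
    rw [hB]
    exact ⟨_, IsHomogeneous.prod Finset.univ (fun j => homd d (s j)) (fun _ => d)
      fun j _ => homd_hom (hd j).2⟩
  obtain ⟨eB, hBe⟩ := hBhom
  obtain ⟨eG, hGe⟩ := hG
  refine ⟨ppull lam N G * ppull lam (w + 1) B, ⟨eG + eB, (ppull_hom lam N hGe).mul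
    (ppull_hom lam (w + 1) hBe)⟩, ?_, ?_⟩
  · rw [map_mul, ppull_eval, ppull_eval, ext_self]
    refine mul_ne_zero hyG ?_
    rw [hB, map_prod, Finset.prod_ne_zero_iff]
    intro j _
    rw [homd_eval (hd j).2 _ hz0]
    exact mul_ne_zero (pow_ne_zero _ hz0) (hs j)
  · intro K hK
    have hfin := hGA K hK
    -- points off the zeros of `B`
    have hoff : ∀ x : Fin (n + 1) → ℂ, x ≠ 0 → (∀ p ∈ S, aeval x p = 0) →
        eval (proj lam x) B ≠ 0 → x b ≠ 0 := by
      intro x hx hxS hxB hxb
      apply hx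
      funext j
      have h2 := hrel j x hxS
      rw [hxb, zero_mul] at h2
      rcases mul_eq_zero.1 h2 with h3 | h3
      · exact h3
      · exfalso
        apply hxB
        rw [hB, map_prod]
        exact Finset.prod_eq_zero (Finset.mem_univ j) h3
    have hchoose : ∀ P : {P : ℙ ℂ (Fin (n + 1) → ℂ) | ∃ (x : Fin (n + 1) → ℂ) (hx : x ≠ 0),
        P = Projectivization.mk ℂ x hx ∧ (∀ j, x j ∈ K) ∧
        (∀ p ∈ map (algebraMap k ℂ) '' S, eval x p = 0) ∧
        eval x (ppull lam N G * ppull lam (w + 1) B) ≠ 0},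
        ∃ (x : Fin (n + 1) → ℂ) (hx : x ≠ 0), P.1 = Projectivization.mk ℂ x hx ∧ (∀ j, x j ∈ K) ∧
        (∀ p ∈ S, aeval x p = 0) ∧ eval (ext N (proj lam x)) G ≠ 0 ∧
        eval (proj lam x) B ≠ 0 := by
      rintro ⟨P, x, hx, hP, hxK, hxS, hxG⟩
      rw [map_mul] at hxG
      have h5 := ppull_eval lam (w + 1) B x
      rw [ext_self] at h5
      have h6 := ppull_eval lam N G x
      refine ⟨x, hx, hP, hxK, fun p hp => ?_, ?_, ?_⟩
      · have h7 := hxS _ ⟨p, hp, rfl⟩
        rw [eval_map] at h7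
        exact h7
      · intro h7
        exact hxG (mul_eq_zero_of_left (h6.trans h7) _)
      · intro h7
        exact hxG (mul_eq_zero_of_right _ (h5.trans h7))
    choose x hx hxP hxK hxS hxG hxB using hchoose
    have hne : ∀ P, ext N (proj lam (x P)) ≠ 0 := by
      intro P h
      have h2 := congrFun h 0
      rw [ext_zero, hp0] at h2
      exact hoff (x P) (hx P) (hxS P) (hxB P) h2
    have hmem : ∀ P, Projectivization.mk ℂ (ext N (proj lam (x P))) (hne P) ∈
        {P : ℙ ℂ (Fin (N + 1) → ℂ) | ∃ (x : Fin (N + 1) → ℂ) (hx : x ≠ 0),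
        P = Projectivization.mk ℂ x hx ∧ (∀ j, x j ∈ K) ∧
        (∀ p ∈ ({A} : Set (MvPolynomial (Fin (N + 1)) ℂ)), eval x p = 0) ∧ eval x G ≠ 0} := by
      intro P
      refine ⟨_, hne P, rfl, ?_, ?_, hxG P⟩
      · intro i
        unfold ext
        split_ifs
        · unfold proj
          refine sum_mem fun j _ => mul_mem ?_ (hxK P j)
          change ((lam _ j : ℚ) : ℂ) ∈ K
          have := K.algebraMap_mem (lam ⟨i, by assumption⟩ j)
          rwa [eq_ratCast] at this
        · exact zero_mem K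
      · intro p hp
        rw [Set.mem_singleton_iff] at hp
        rw [hp]
        exact hA (x P) (hxS P)
    have hfin' := hfin.to_subtype
    have hinj : Function.Injective (fun P => (⟨_, hmem P⟩ :
        {P : ℙ ℂ (Fin (N + 1) → ℂ) | ∃ (x : Fin (N + 1) → ℂ) (hx : x ≠ 0),
        P = Projectivization.mk ℂ x hx ∧ (∀ j, x j ∈ K) ∧
        (∀ p ∈ ({A} : Set (MvPolynomial (Fin (N + 1)) ℂ)), eval x p = 0) ∧ eval x G ≠ 0})) := by
      intro P P' hPP
      have h2 := congrArg Subtype.val hPP
      simp only at h2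
      rw [Projectivization.mk_eq_mk_iff'] at h2
      obtain ⟨c, hc⟩ := h2
      have hc0 : c ≠ 0 := by
        intro h3
        rw [h3, zero_smul] at hc
        exact hne P hc.symm
      -- the projections are proportional
      have h3 : proj lam (x P) = c • proj lam (x P') := by
        funext i
        have h4 := congrFun hc ⟨(i : ℕ), by have := i.2; omega⟩
        rw [← ext_smul, ext_apply hN, ext_apply hN] at h4
        exact h4.symm
      have h4 : ∀ j, eval (proj lam (x P')) (homd d (s j)) ≠ 0 := by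
        intro j h5
        apply hxB P'
        rw [hB, map_prod]
        exact Finset.prod_eq_zero (Finset.mem_univ j) h5
      have hsc : ∀ (Q : MvPolynomial (Fin (w + 1 + 1)) ℂ), Q.IsHomogeneous d →
          eval (c • proj lam (x P')) Q = c ^ d * eval (proj lam (x P')) Q := by
        intro Q hQ
        exact aeval_scale (Ω := ℂ) hQ c _
      have hb' : (x P') b ≠ 0 := hoff (x P') (hx P') (hxS P') (hxB P')
      have hb'' : (x P) b ≠ 0 := hoff (x P) (hx P) (hxS P) (hxB P)
      have h5 : x P = ((x P) b / (x P') b) • x P' := by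
        funext j
        rw [Pi.smul_apply, smul_eq_mul]
        have h6 := hrel j (x P) (hxS P)
        have h7 := hrel j (x P') (hxS P')
        rw [h3, hsc _ (homd_hom (hd j).2), hsc _ (homd_hom (hd j).1)] at h6
        have h8 : (x P) j * eval (proj lam (x P')) (homd d (s j)) =
            (x P) b * eval (proj lam (x P')) (homd d (r j)) := by
          apply mul_left_cancel₀ (pow_ne_zero d hc0)
          linear_combination h6
        rw [div_mul_eq_mul_div, eq_div_iff hb']
        apply mul_right_cancel₀ (h4 j)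
        linear_combination (x P') b * h8 - (x P) b * h7
      apply Subtype.ext
      rw [hxP P, hxP P', Projectivization.mk_eq_mk_iff']
      exact ⟨_, h5.symm⟩
    exact Set.finite_coe_iff.1 (Finite.of_injective _ hinj)

end

end Pool.Agent.H911.QD
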