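import Pool.Graph.R_pool_sql_team_seeded_63374d34.N254.SQ.Main2
import Pool.Graph.R_pool_sql_team_seeded_63374d34.N254.SQ.Fin3
import Pool.Agent.H911.QD.Smooth

/-!
The general hypersurface through a base locus: it is smooth, and its closed subvarieties of positive
dimension outside of the base locus are of general type. (Adapted from the module `N254.SQ.Main2` of
the library, with a pointwise hypothesis for the smoothness.)
-/

set_option autoImplicit false

namespace Pool.Agent.H911.QD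

open MvPolynomial Filter Topology
open Pool.Agent.N254.SQ
open Pool.Agent.W602.GT (SubVar GeneralType val coords)

theorem main_sub (H : Leaves4) (n e : ℕ) (hn : 1 ≤ n) :
    ∃ D₁ : ℕ, ∀ D, D₁ ≤ D → ∀ (K : Type) [Field K] [CharZero K]
      (ι : Type) [Fintype ι] (q : ι → MvPolynomial (Fin (n + 1)) K),
      (∀ i, (q i).IsHomogeneous e) →
      (∀ (Ω : Type) [Field Ω] [Algebra K Ω] (x : Fin (n + 1) → Ω) (a : Fin (n + 1)), x a = 1 →
        (∀ i, aeval x (q i) = 0) → Algebra.trdeg K (Algebra.adjoin K (Set.range x)) <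
        (((Matrix.of fun (i : ι) (j : Fin (n + 1)) =>
          (aeval x (pderiv j (q i)) : Ω)).rank : ℕ) : Cardinal)) →
      ∃ c : Fin (n * (2 * n + 1)) × ι → K, Smooth (hyp q D c) ∧ ∀ σ : K →+* ℂ,
        (∀ (F : Type) [Field F] [Algebra ℂ F] (w : ℕ) (y : Fin (n + 1) → F), 1 ≤ w →
          SubVar (fun _ : Unit => map σ (hyp q D c)) F w y →
          (∀ i, val y (map σ (q i)) = 0) ∨ GeneralType ℂ F w) := by
  classical
  obtain ⟨D₂, hD₂⟩ := H.gt e (n * (2 * n + 1))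
  refine ⟨max D₂ 1, fun D hD K _ _ ι _ q hq hr => ?_⟩
  have hDD2 : D₂ ≤ D := le_trans (le_max_left _ _) hD
  have hD1 : 1 ≤ D := le_trans (le_max_right _ _) hD
  set L := n * (2 * n + 1) with hL
  have hL2 : 2 * n + 1 ≤ L := Nat.le_mul_of_pos_left _ hn
  obtain ⟨Δ₁, hΔ₁, hB1⟩ := H.blocks K n L D e ι q hq
  obtain ⟨Δ₂, hΔ₂, hS1⟩ := t_smooth' t_spec t_count t_td K n L D e ι q hq hD1 hL2 hr
  obtain ⟨c, hc⟩ : ∃ c : Fin L × ι → K, eval c (Δ₁ * Δ₂) ≠ 0 := by
    by_contra hcon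
    push Not at hcon
    exact mul_ne_zero hΔ₁ hΔ₂ (MvPolynomial.funext fun c => by rw [hcon c, map_zero])
  rw [map_mul] at hc
  have hc1 := left_ne_zero_of_mul hc
  have hc2 := right_ne_zero_of_mul hc
  have haev : ∀ (Ω : Type) [Field Ω] (σ : K →+* Ω) (Δ : MvPolynomial (Fin L × ι) K),
      eval c Δ ≠ 0 → eval₂ σ (fun p => σ (c p)) Δ ≠ 0 := by
    intro Ω _ σ Δ h h2
    apply h
    apply σ.injective
    rw [map_zero, ← h2]
    exact (eval₂_comp (f := σ) (g := c) Δ).trans rfl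
  -- the values of the terms over an extension of `ℂ`
  have hval : ∀ (σ : K →+* ℂ) (Ω : Type) [Field Ω] (τ : ℂ →+* Ω) (x : Fin (n + 1) → Ω)
      (t : Fin L), eval₂ τ x (∑ i, C (σ (c (t, i))) * map σ (q i)) * eval₂ τ x (lin ℂ n t) ^ D =
        (∑ i, τ (σ (c (t, i))) * eval₂ (τ.comp σ) x (q i)) *
          eval₂ (τ.comp σ) x (lin K n t) ^ D := by
    intro σ Ω _ τ x t
    rw [eval₂_sum, ← map_lin σ, eval₂_map]
    congr 1
    apply Finset.sum_congr rfl
    intro i _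
    rw [eval₂_mul, eval₂_C, eval₂_map]
  have hkey : ∀ (σ : K →+* ℂ) (Ω : Type) [Field Ω] (τ : ℂ →+* Ω) (x : Fin (n + 1) → Ω)
      (𝓑 : Finset (Finset (Fin L))), x ≠ 0 → (∀ B ∈ 𝓑, B.Nonempty) →
      (∀ B ∈ 𝓑, ∀ B' ∈ 𝓑, B ≠ B' → Disjoint B B') → L ≤ n * 𝓑.card →
      (∀ B ∈ 𝓑, ∑ t ∈ B, eval₂ τ x (∑ i, C (σ (c (t, i))) * map σ (q i)) *
        eval₂ τ x (lin ℂ n t) ^ D = 0) → ∀ i, eval₂ τ x (map σ (q i)) = 0 := by
    intro σ Ω _ τ x 𝓑 hx hne hdis hcard hvan i
    letI : Algebra K Ω := (τ.comp σ).toAlgebra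
    have hcard2 : 2 * n + 1 ≤ 𝓑.card := Nat.le_of_mul_le_mul_left hcard hn
    have key := hB1 Ω (fun p => (τ.comp σ) (c p)) (haev Ω (τ.comp σ) Δ₁ hc1) 𝓑 hne hdis hcard2 x
      hx (by
        intro B hBB
        rw [← hvan B hBB]
        apply Finset.sum_congr rfl
        intro t _
        rw [hval]
        rfl) i
    rw [eval₂_map]
    exact key
  have hsum : ∀ (σ : K →+* ℂ) (Ω : Type) [Field Ω] (τ : ℂ →+* Ω) (x : Fin (n + 1) → Ω),
      eval₂ τ x (map σ (hyp q D c)) = ∑ t : Fin L, eval₂ τ x (∑ i, C (σ (c (t, i))) *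
        map σ (q i)) * eval₂ τ x (lin ℂ n t) ^ D := by
    intro σ Ω _ τ x
    rw [map_hyp, hyp, eval₂_sum]
    apply Finset.sum_congr rfl
    intro t _
    rw [eval₂_mul, eval₂_pow]
  have hhom : ∀ (σ : K →+* ℂ) (t : Fin L),
      (∑ i, C (σ (c (t, i))) * map σ (q i)).IsHomogeneous e := fun σ t =>
    fam_hom (fun i => (hq i).map σ) _
  refine ⟨c, ?_, fun σ => ?_⟩
  · intro Ω _ σ x hx
    letI : Algebra K Ω := σ.toAlgebra
    obtain ⟨j, hj⟩ := hS1 Ω (fun p => σ (c p)) (haev Ω σ Δ₂ hc2) x hx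
    refine ⟨j, ?_⟩
    rw [map_hyp]
    exact hj
  · intro F _ _ w y hw hy
    by_cases hgt : GeneralType ℂ F w
    · exact Or.inr hgt
    · left
      intro i
      obtain ⟨𝓑, hne, hdis, hvan, hcard⟩ := split_card H.part hn (fun t : Fin L =>
        eval₂ (algebraMap ℂ F) y (∑ i, C (σ (c (t, i))) * map σ (q i)) *
          eval₂ (algebraMap ℂ F) y (lin ℂ n t) ^ D) (by
          rw [← hsum σ F (algebraMap ℂ F)]
          exact hy.mem ()) (by
        intro B hBc hB0 hBmin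
        apply hgt
        have hc : Fintype.card {t // t ∈ B} = B.card := Fintype.card_coe B
        refine hD₂ D hDD2 F n w y hw hy.ne hy.gen hy.dim {t // t ∈ B} ?_ ?_
          (fun t => ∑ i, C (σ (c (t.1, i))) * map σ (q i)) (fun t => (t.1 : ℕ)) ?_
          (fun t => hhom σ t.1) ?_ ?_
        · rw [hc]
          exact (Finset.card_le_univ B).trans (by simp)
        · rw [hc]
          exact hBc
        · intro a b hab
          exact Subtype.ext (Fin.ext hab)
        · have h1 := hB0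
          rw [← Finset.sum_coe_sort] at h1
          exact h1
        · intro B' hB' hB'u
          exact sub_min (fun t : Fin L =>
            eval₂ (algebraMap ℂ F) y (∑ i, C (σ (c (t, i))) * map σ (q i)) *
              eval₂ (algebraMap ℂ F) y (lin ℂ n t) ^ D) B hBmin B' hB' hB'u)
      exact hkey σ F (algebraMap ℂ F) y 𝓑 hy.ne hne hdis hcard hvan i

end Pool.Agent.H911.QD
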