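import Pool.Agent.H911.QD.Pull
import Pool.Agent.H911.QD.Main
import Pool.Agent.H911.QD.Base
import Pool.Agent.H911.QR.KeyQ
import Pool.Graph.R_pool_sql_team_seeded_63374d34.N254.SQ.IdlR

/-!
The key step: a smooth hypersurface of dimension `2 m` through a birational model of a variety of
dimension at most `m`.
-/

set_option autoImplicit false

namespace Pool.Agent.H911.QD

open MvPolynomial
open Pool.Agent.H911.QR (homb homb_hom homb_eval hatc hatc_adjoin hatc_aeval exists_basis map_val)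
open Pool.Agent.N254.SQ (GenericPoint IsForm aeval_zero_of aeval_scale FiniteOff Component
  SmoothOver powerFormOver hyp Smooth powerSum t_comp comp_trdeg leaves4 Fm t_idls)
open Pool.Agent.W602.GT (coords SubVar GeneralType val)

theorem trd_le {L : Type} [Field L] [Algebra ℂ L] [Algebra ℚ L] [IsScalarTower ℚ ℂ L] {ι : Type}
    (x : ι → L) : Algebra.trdeg ℂ (Algebra.adjoin ℂ (Set.range x)) ≤
      Algebra.trdeg ℚ (Algebra.adjoin ℚ (Set.range x)) := by
  obtain ⟨τ, g, hg, hgb⟩ := exists_basis ℂ x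
  rw [← hgb.cardinalMk_eq_trdeg]
  have h5 : AlgebraicIndependent ℂ (fun s => x (g s)) :=
    hgb.1.map' (f := (Algebra.adjoin ℂ (Set.range x)).val) Subtype.val_injective
  have h6 : AlgebraicIndependent ℚ (fun s => x (g s)) :=
    h5.restrictScalars (algebraMap ℚ ℂ).injective
  have h7 : AlgebraicIndependent ℚ (fun s => hatc ℚ x (g s)) :=
    AlgebraicIndependent.of_comp (Algebra.adjoin ℚ (Set.range x)).val h6
  exact h7.cardinalMk_le_trdeg

/-- specialization of points gives a surjection -/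
theorem spec_map {K L L' : Type} [Field K] [Field L] [Algebra K L] [Field L'] [Algebra K L']
    {ι : Type} (x : ι → L') (y : ι → L)
    (h : ∀ P : MvPolynomial ι K, aeval x P = 0 → aeval y P = 0) :
    ∃ ψ : Algebra.adjoin K (Set.range x) →ₐ[K] Algebra.adjoin K (Set.range y),
      Function.Surjective ψ ∧ ∀ Q : MvPolynomial ι K, ψ (aeval (hatc K x) Q) =
        aeval (hatc K y) Q := by
  have h8 : RingHom.ker (aeval (hatc K x) : MvPolynomial ι K →ₐ[K] _) ≤
      RingHom.ker (aeval (hatc K y) : MvPolynomial ι K →ₐ[K] _) := by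
    intro Q hQ0
    rw [RingHom.mem_ker] at hQ0 ⊢
    apply Subtype.ext
    rw [hatc_aeval]
    apply h
    rw [← hatc_aeval, hQ0]
    rfl
  have hsur : Function.Surjective (aeval (hatc K x) : MvPolynomial ι K →ₐ[K]
      Algebra.adjoin K (Set.range x)) := by
    rw [← AlgHom.range_eq_top, ← Algebra.adjoin_range_eq_range_aeval, hatc_adjoin]
  have hsur' : Function.Surjective (aeval (hatc K y) : MvPolynomial ι K →ₐ[K]
      Algebra.adjoin K (Set.range y)) := by
    rw [← AlgHom.range_eq_top, ← Algebra.adjoin_range_eq_range_aeval, hatc_adjoin]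
  have hψ : ∀ Q : MvPolynomial ι K,
      AlgHom.liftOfSurjective (aeval (hatc K x)) hsur (aeval (hatc K y)) h8
        (aeval (hatc K x) Q) = aeval (hatc K y) Q := by
    intro Q
    exact AlgHom.liftOfSurjective_apply (aeval (hatc K x)) hsur (aeval (hatc K y)) h8 Q
  refine ⟨AlgHom.liftOfSurjective (aeval (hatc K x)) hsur (aeval (hatc K y)) h8, ?_, hψ⟩
  intro a
  obtain ⟨Q, rfl⟩ := hsur' a
  exact ⟨_, hψ Q⟩

/-- the properties of the hypersurface -/
structure Prop1 {n N : ℕ} (h : n ≤ N) (F : MvPolynomial (Fin (n + 1)) ℚ)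
    (A : MvPolynomial (Fin (N + 1)) ℂ) : Prop where
  form : IsForm A
  van : ∀ (Ω : Type) [Field Ω] [Algebra ℂ Ω] (x : Fin (N + 1) → Ω),
    (∀ i : Fin (N + 1), n < (i : ℕ) → x i = 0) →
    aeval (fun j => x (emb h j)) (map (algebraMap ℚ ℂ) F) = 0 → aeval x A = 0
  sub : ∀ (L : Type) [Field L] [Algebra ℂ L] (w : ℕ) (y : Fin (N + 1) → L), 1 ≤ w →
    SubVar (fun _ : Unit => A) L w y → GeneralType ℂ L w ∨
      ((∀ i : Fin (N + 1), n < (i : ℕ) → y i = 0) ∧
        aeval (fun j => y (emb h j)) (map (algebraMap ℚ ℂ) F) = 0)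

theorem exists_hyp (N e : ℕ) (hN1 : 1 ≤ N) : ∃ D₁ : ℕ, ∀ D, D₁ ≤ D → ∀ (n : ℕ) (h : n ≤ N),
    2 * n ≤ N + 1 → 1 ≤ e → ∀ F : MvPolynomial (Fin (n + 1)) ℚ, F.IsHomogeneous e → Prime F →
    ∃ Q : Fin (N * (2 * N + 1)) → MvPolynomial (Fin (N + 1)) ℚ,
      (∀ t, (Q t).IsHomogeneous e) ∧ SmoothOver (powerFormOver D Q) ∧
      Prop1 h F (map (algebraMap ℚ ℂ) (powerFormOver D Q)) := by
  obtain ⟨D₁, H⟩ := main_sub leaves4 N e hN1
  refine ⟨D₁, fun D hD n h hn he F hF hp => ?_⟩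
  obtain ⟨c, hc1, hc2⟩ := H D hD ℚ _ (bq h e F) (bq_hom h he hF)
    (fun Ω _ _ x a ha hq => base_pt h hn he hF hp Ω x a ha hq)
  have hhom : ∀ t, (∑ i, C (c (t, i)) * bq h e F i).IsHomogeneous e := by
    intro t
    refine IsHomogeneous.sum _ _ _ fun i _ => ?_
    have h2 := (isHomogeneous_C (Fin (N + 1)) (c (t, i))).mul (bq_hom h he hF i)
    rwa [zero_add] at h2
  have hA : powerFormOver D (fun t => ∑ i, C (c (t, i)) * bq h e F i) = hyp (bq h e F) D c := rfl
  refine ⟨fun t => ∑ i, C (c (t, i)) * bq h e F i, hhom, ?_, ?_, ?_, ?_⟩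
  · intro Ω _ τ y hy
    obtain ⟨j, hj⟩ := hc1 Ω τ y hy
    refine ⟨j, ?_⟩
    rw [pderiv_map, eval_map] at hj
    exact hj
  · refine ⟨e + D, IsHomogeneous.map ?_ _⟩
    refine IsHomogeneous.sum _ _ _ fun t _ => ?_
    refine (hhom t).mul ?_
    have h1 : (∑ j : Fin (N + 1), C (((t : ℕ) : ℚ) ^ (j : ℕ)) * X j :
        MvPolynomial (Fin (N + 1)) ℚ).IsHomogeneous 1 := by
      refine IsHomogeneous.sum _ _ _ fun j _ => ?_
      have h2 := (isHomogeneous_C (Fin (N + 1)) (((t : ℕ) : ℚ) ^ (j : ℕ))).mul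
        (isHomogeneous_X ℚ j)
      rwa [zero_add] at h2
    have h2 := h1.pow D
    rwa [one_mul] at h2
  · intro Ω _ _ x hx hxF
    let _ : Algebra ℚ Ω := ((algebraMap ℂ Ω).comp (algebraMap ℚ ℂ)).toAlgebra
    have _i : IsScalarTower ℚ ℂ Ω := IsScalarTower.of_algebraMap_eq' rfl
    rw [map_val] at hxF
    have h1 := bq_of h (e := e) x hx hxF
    rw [map_val, hA]
    unfold hyp
    rw [map_sum]
    refine Finset.sum_eq_zero fun t _ => ?_
    rw [map_mul, map_sum, Finset.sum_eq_zero, zero_mul]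
    intro i _
    rw [map_mul, h1 i, mul_zero]
  · intro L _ _ w y hw hy
    rcases hc2 (algebraMap ℚ ℂ) L w y hw hy with h1 | h1
    · right
      let _ : Algebra ℚ L := ((algebraMap ℂ L).comp (algebraMap ℚ ℂ)).toAlgebra
      have _i : IsScalarTower ℚ ℂ L := IsScalarTower.of_algebraMap_eq' rfl
      rw [map_val]
      refine bq_zero h (e := e) y hy.ne fun i => ?_
      rw [← map_val]
      exact h1 i
    · exact Or.inl h1

/-- KEY, with control of the dimension -/
theorem key_dim {n w N : ℕ} {k : Type} [Field k] [Algebra k ℂ]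
    (S : Set (MvPolynomial (Fin (n + 1)) k))
    {L : Type} [Field L] [Algebra ℂ L] (y : Fin (n + 1) → L) (hw : 1 ≤ w)
    (hgp : GenericPoint S L w y) (hgt : GeneralType ℂ L w)
    (lam : Fin (w + 1 + 1) → Fin (n + 1) → ℚ) (b : Fin (n + 1)) (hb : y b ≠ 0)
    (hp0 : ∀ (Ω : Type) [Field Ω] [Algebra ℂ Ω] (x : Fin (n + 1) → Ω), proj lam x 0 = x b)
    (hcoords : coords ℂ (proj lam y) = ⊤) (hN : w + 1 ≤ N) {e : ℕ}
    (F : MvPolynomial (Fin (w + 1 + 1)) ℚ) (hF : F.IsHomogeneous e) (hprime : Prime F)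
    (hFy : aeval (proj lam y) (map (algebraMap ℚ ℂ) F) = 0)
    (A : MvPolynomial (Fin (N + 1)) ℂ) (hA : Prop1 hN F A)
    (hno : ∀ (L' : Type) [Field L'] [Algebra ℂ L'] (w' : ℕ) (y' : Fin (N + 1) → L'), 1 ≤ w' →
      SubVar (fun _ : Unit => A) L' w' y' → GeneralType ℂ L' w' → ¬ Component (FiniteOff {A}) y') :
    ∃ G : MvPolynomial (Fin (N + 1)) ℂ, IsForm G ∧ FiniteOff {A} G ∧
      aeval (ext N (proj lam y)) G ≠ 0 := by
  by_contra hcon
  push Not at hcon
  obtain ⟨y2, hy2⟩ : ∃ y2 : Fin (N + 1) → L, y2 = ext N (proj lam y) := ⟨_, rfl⟩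
  rw [← hy2] at hcon
  have hy20 : y2 0 ≠ 0 := by
    rw [hy2, ext_zero, hp0]
    exact hb
  have hy2ne : y2 ≠ 0 := by
    intro h
    apply hy20
    rw [h]
    rfl
  have hy2e : ∀ j, y2 (emb hN j) = proj lam y j := by
    intro j
    rw [hy2]
    exact ext_apply hN (proj lam y) j
  have hy2z : ∀ i : Fin (N + 1), w + 1 < (i : ℕ) → y2 i = 0 := by
    intro i hi
    rw [hy2]
    unfold ext
    rw [dif_neg (by omega)]
  have hcoords2 : coords ℂ y2 = ⊤ := by
    rw [eq_top_iff, ← hcoords]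
    have h1 : proj lam y 0 ≠ 0 := by
      rw [hp0]
      exact hb
    rw [coords_affine _ 0 h1, coords_affine _ 0 hy20, IntermediateField.adjoin_le_iff]
    rintro _ ⟨j, rfl⟩
    have h2 : proj lam y j / proj lam y 0 = y2 (emb hN j) / y2 0 := by
      rw [hy2e, hy2, ext_zero]
    simp only
    rw [h2]
    exact IntermediateField.subset_adjoin ℂ _ ⟨_, rfl⟩
  have hyA : aeval y2 A = 0 := by
    refine hA.van L y2 hy2z ?_
    have h1 : (fun j => y2 (emb hN j)) = proj lam y := funext hy2e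
    rw [h1]
    exact hFy
  have hIA : FiniteOff {A} A := by
    intro L' _
    refine Set.finite_empty.subset ?_
    rintro P ⟨x, hx, -, -, h3, h4⟩
    exact absurd (h3 A rfl) h4
  have hgen2 : Pool.Agent.N254.SQ.Gen L w y2 := ⟨hy2ne, hcoords2, hgp.sub.dim⟩
  rcases t_comp N (FiniteOff {A}) (t_idls.finite N {A}) L w y2 hgen2
    (fun G hG hI => hcon G hG hI) with ⟨H, hH, hH0, hHI⟩ |
    ⟨L', iF, iA, w', y', hgen, hw', hI', hle, ⟨G, hG, hG0, hG1⟩, hcomp⟩
  · exact hno L w y2 hw ⟨hy2ne, fun _ => hyA, hcoords2, hgp.sub.dim⟩ hgt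
      ⟨fun G hG hI => hcon G hG hI, H, hH, hH0, hHI⟩
  · have hsub : SubVar (fun _ : Unit => A) L' w' y' :=
      ⟨hgen.ne, fun _ => hI' A hA.form hIA, hgen.gen, hgen.dim⟩
    have hco : Component (FiniteOff {A}) y' := ⟨hI', hcomp⟩
    rcases hA.sub L' w' y' hw' hsub with h | ⟨hz, hFz⟩
    · exact hno L' w' y' hw' hsub h hco
    · have hy'0 : y' 0 ≠ 0 := by
        intro h1
        apply hy20
        have h2 := hle (X 0) ⟨1, isHomogeneous_X ℂ 0⟩ (by rw [aeval_X, h1])
        rwa [aeval_X] at h2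
      let _ : Algebra ℚ L' := ((algebraMap ℂ L').comp (algebraMap ℚ ℂ)).toAlgebra
      have _i : IsScalarTower ℚ ℂ L' := IsScalarTower.of_algebraMap_eq' rfl
      obtain ⟨x1, hx1⟩ : ∃ x1 : Fin (N + 1) → L', x1 = (y' 0)⁻¹ • y' := ⟨_, rfl⟩
      obtain ⟨z1, hz1⟩ : ∃ z1 : Fin (N + 1) → L, z1 = (y2 0)⁻¹ • y2 := ⟨_, rfl⟩
      have hx10 : x1 0 = 1 := by
        rw [hx1, Pi.smul_apply, smul_eq_mul, inv_mul_cancel₀ hy'0]
      have hz10 : z1 0 = 1 := by
        rw [hz1, Pi.smul_apply, smul_eq_mul, inv_mul_cancel₀ hy20]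
      have fx : ∀ P, IsForm P → (aeval x1 P = 0 ↔ aeval y' P = 0) := by
        intro P hP
        rw [hx1]
        exact aeval_zero_of hP (inv_ne_zero hy'0) y'
      have fz : ∀ P, IsForm P → (aeval z1 P = 0 ↔ aeval y2 P = 0) := by
        intro P hP
        rw [hz1]
        exact aeval_zero_of hP (inv_ne_zero hy20) y2
      obtain ⟨ψ, hψ, hψ2⟩ := spec_map (K := ℂ) x1 z1 (by
        intro P hP
        have h1 : IsForm (homb 0 P) := ⟨_, homb_hom 0 P⟩
        rw [← homb_eval x1 hx10, fx _ h1] at hP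
        rw [← homb_eval z1 hz10, fz _ h1]
        exact hle _ h1 hP)
      -- the transcendence degrees
      have hx1z : ∀ i : Fin (N + 1), w + 1 < (i : ℕ) → x1 i = 0 := by
        intro i hi
        rw [hx1, Pi.smul_apply, hz i hi, smul_zero]
      have h1 : Algebra.trdeg ℂ (Algebra.adjoin ℂ (Set.range x1)) ≤ (w : Cardinal) := by
        refine (trd_le x1).trans ?_
        rw [range_eq hN x1 hx1z]
        have h2 : x1 (emb hN 0) = 1 := hx10
        have h3 : aeval (fun j => x1 (emb hN j)) F = 0 := by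
          rw [← map_val]
          have h4 : (fun j => x1 (emb hN j)) = (y' 0)⁻¹ • fun j => y' (emb hN j) := by
            funext j
            rw [hx1]
            rfl
          rw [h4, aeval_zero_of ⟨e, hF.map _⟩ (inv_ne_zero hy'0)]
          exact hFz
        obtain ⟨k', hk', hk'w⟩ := hyp_trdeg hF hprime (fun j => x1 (emb hN j)) 0 h2 h3
        rw [hk']
        have : k' ≤ w := by omega
        exact_mod_cast this
      have h2 : Algebra.trdeg ℂ (Algebra.adjoin ℂ (Set.range z1)) = (w : Cardinal) := by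
        rw [← comp_trdeg]
        have h3 : Set.range z1 = Set.range fun j => y2 j / y2 0 := by
          congr 1
          rw [hz1]
          funext j
          rw [Pi.smul_apply, smul_eq_mul, div_eq_inv_mul]
        rw [h3, ← coords_affine _ 0 hy20, hcoords2]
        rw [(IntermediateField.topEquiv (F := ℂ) (E := L)).trdeg_eq, hgp.sub.dim]
      have hinj := surj_inj ψ hψ (h1.trans_lt Cardinal.natCast_lt_aleph0) (h1.trans_eq h2.symm)
      apply hG1
      rw [← fx G hG]
      have h3 : aeval (hatc ℂ x1) G = 0 := by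
        apply hinj
        rw [hψ2, map_zero]
        apply Subtype.ext
        rw [hatc_aeval, (fz G hG).2 hG0]
        rfl
      rw [← hatc_aeval, h3]
      rfl

end Pool.Agent.H911.QD
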