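import Pool.Graph.R_pool_sql_team_seeded_63374d34.N254.SQ.Comp
import Pool.Agent.H911.QR.Dens
import Pool.Agent.H911.QD.Hyp

/-!
A variety of dimension `w` over a number field is birational, by a linear projection over `ℚ`, to a
closed subset of an irreducible hypersurface over `ℚ` in the projective space of dimension `w + 1`.
-/

set_option autoImplicit false

namespace Pool.Agent.H911.QD

open MvPolynomial
open Pool.Agent.H911.QR (hatc hatc_adjoin hatc_aeval exists_basis homb homb_hom homb_eval
  ind_of_generic)
open Pool.Agent.N254.SQ (comp_trdeg)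

/-- primitive elements with rational coefficients -/
theorem exists_theta {L : Type} [Field L] [Algebra ℂ L] {N : ℕ} (u : Fin N → L)
    (hu : IntermediateField.adjoin ℂ (Set.range u) = ⊤) (M : IntermediateField ℂ L)
    (hM : Algebra.IsAlgebraic M L) : ∃ c : Fin N → ℚ, ∀ M' : IntermediateField ℂ L, M ≤ M' →
      ∑ j, algebraMap ℂ L (c j : ℂ) * u j ∈ M' → M' = ⊤ := by
  classical
  have hL : CharZero L := charZero_of_injective_algebraMap (algebraMap ℂ L).injective
  have htop : IntermediateField.adjoin M (Set.range u) = ⊤ := by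
    have h1 : (⊤ : IntermediateField ℂ L) ≤
        (IntermediateField.adjoin M (Set.range u)).restrictScalars ℂ := by
      rw [← hu, IntermediateField.adjoin_le_iff]
      rintro _ ⟨j, rfl⟩
      exact IntermediateField.subset_adjoin M _ ⟨j, rfl⟩
    rw [eq_top_iff]
    intro z _
    exact h1 (show z ∈ (⊤ : IntermediateField ℂ L) from trivial)
  have hfin : FiniteDimensional M (IntermediateField.adjoin M (Set.range u)) :=
    IntermediateField.finiteDimensional_adjoin fun z _ => (hM.isAlgebraic z).isIntegral
  have hfin2 : FiniteDimensional M L := by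
    rw [htop] at hfin
    exact (IntermediateField.topEquiv (F := M) (E := L)).toLinearEquiv.finiteDimensional
  have hsep : Algebra.IsSeparable M L := inferInstance
  have hfi : Finite (IntermediateField M L) :=
    (Field.exists_primitive_element_iff_finite_intermediateField M L).1
      ⟨hM, Field.exists_primitive_element M L⟩
  by_contra hcon
  push Not at hcon
  -- the subspaces of rational coefficient vectors
  let V : {M' : IntermediateField M L // M' ≠ ⊤} → Subspace ℚ (Fin N → ℚ) := fun M' =>
    { carrier := {c | ∑ j, algebraMap ℂ L (c j : ℂ) * u j ∈ M'.1}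
      add_mem' := by
        intro c d hc hd
        have h1 : ∑ j, algebraMap ℂ L (((c + d) j : ℚ) : ℂ) * u j =
            ∑ j, algebraMap ℂ L (c j : ℂ) * u j + ∑ j, algebraMap ℂ L (d j : ℂ) * u j := by
          rw [← Finset.sum_add_distrib]
          refine Finset.sum_congr rfl fun j _ => ?_
          rw [Pi.add_apply, Rat.cast_add, map_add, add_mul]
        change ∑ j, algebraMap ℂ L (((c + d) j : ℚ) : ℂ) * u j ∈ M'.1
        rw [h1]
        exact add_mem hc hd
      zero_mem' := by
        change ∑ j, algebraMap ℂ L (((0 : Fin N → ℚ) j : ℚ) : ℂ) * u j ∈ M'.1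
        simp
      smul_mem' := by
        intro r c hc
        have h1 : ∑ j, algebraMap ℂ L (((r • c) j : ℚ) : ℂ) * u j =
            (algebraMap ℂ L (r : ℂ)) * ∑ j, algebraMap ℂ L (c j : ℂ) * u j := by
          rw [Finset.mul_sum]
          refine Finset.sum_congr rfl fun j _ => ?_
          rw [Pi.smul_apply, smul_eq_mul, Rat.cast_mul, map_mul, mul_assoc]
        change ∑ j, algebraMap ℂ L (((r • c) j : ℚ) : ℂ) * u j ∈ M'.1
        rw [h1]
        refine mul_mem ?_ hc
        have h2 : algebraMap ℂ L (r : ℂ) = algebraMap M L (algebraMap ℂ M (r : ℂ)) := rfl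
        rw [h2]
        exact M'.1.algebraMap_mem _ }
  have hcov : ⋃ M', (V M' : Set (Fin N → ℚ)) = Set.univ := by
    rw [Set.eq_univ_iff_forall]
    intro c
    obtain ⟨M', hMM', hc, hne⟩ := hcon c
    rw [Set.mem_iUnion]
    refine ⟨⟨IntermediateField.extendScalars hMM', ?_⟩, ?_⟩
    · intro h
      apply hne
      rw [eq_top_iff]
      intro z _
      have h1 : z ∈ IntermediateField.extendScalars hMM' := by
        rw [h]
        trivial
      exact h1
    · exact hc
  obtain ⟨M', hM'⟩ := Subspace.exists_eq_top_of_iUnion_eq_univ hcov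
  apply M'.2
  rw [eq_top_iff]
  refine (le_of_eq htop.symm).trans ?_
  rw [IntermediateField.adjoin_le_iff]
  rintro _ ⟨j, rfl⟩
  have h1 : (Pi.single j 1 : Fin N → ℚ) ∈ V M' := by
    rw [hM']
    trivial
  have h2 : ∑ i, algebraMap ℂ L (((Pi.single j 1 : Fin N → ℚ) i : ℚ) : ℂ) * u i = u j := by
    rw [Finset.sum_eq_single j]
    · simp
    · intro i _ hi
      simp [Pi.single_eq_of_ne hi]
    · intro h
      exact absurd (Finset.mem_univ j) h
  have h3 : ∑ i, algebraMap ℂ L (((Pi.single j 1 : Fin N → ℚ) i : ℚ) : ℂ) * u i ∈ M'.1 := h1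
  rw [h2] at h3
  exact h3

/-- the product of the top components -/
theorem top_mul {K : Type} [Field K] {σ : Type} {G H : MvPolynomial σ K} {d : ℕ}
    (hd : (G * H).IsHomogeneous d) (hG : G ≠ 0) (hH : H ≠ 0) :
    G * H = homogeneousComponent G.totalDegree G * homogeneousComponent H.totalDegree H := by
  have hdeg : G.totalDegree + H.totalDegree = d := by
    rw [← totalDegree_mul_of_isDomain hG hH]
    exact hd.totalDegree (mul_ne_zero hG hH)
  have h1 : homogeneousComponent d (G * H) = G * H := by
    rw [homogeneousComponent_of_mem hd, if_pos rfl]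
  have h2 : G * H = ∑ i ∈ Finset.range (G.totalDegree + 1), ∑ j ∈ Finset.range (H.totalDegree + 1),
      homogeneousComponent i G * homogeneousComponent j H := by
    rw [← Finset.sum_mul_sum, sum_homogeneousComponent, sum_homogeneousComponent]
  rw [← h1]
  conv_lhs => rw [h2]
  rw [map_sum, Finset.sum_eq_single G.totalDegree]
  · rw [map_sum, Finset.sum_eq_single H.totalDegree]
    · have h3 := (homogeneousComponent_isHomogeneous G.totalDegree G).mul
        (homogeneousComponent_isHomogeneous H.totalDegree H)
      rw [homogeneousComponent_of_mem h3, if_pos hdeg.symm]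
    · intro j hj hne
      have h3 := (homogeneousComponent_isHomogeneous G.totalDegree G).mul
        (homogeneousComponent_isHomogeneous j H)
      rw [homogeneousComponent_of_mem h3, if_neg]
      intro h4
      exact hne (by omega)
    · intro h3
      exact absurd (Finset.mem_range.2 (Nat.lt_succ_self _)) h3
  · intro i hi hne
    rw [map_sum]
    refine Finset.sum_eq_zero fun j hj => ?_
    have h3 := (homogeneousComponent_isHomogeneous i G).mul
      (homogeneousComponent_isHomogeneous j H)
    rw [homogeneousComponent_of_mem h3, if_neg]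
    rw [Finset.mem_range] at hi hj
    omega
  · intro h3
    exact absurd (Finset.mem_range.2 (Nat.lt_succ_self _)) h3

theorem comp_top_ne {K : Type} [Field K] {σ : Type} {G : MvPolynomial σ K} (hG : G ≠ 0) :
    homogeneousComponent G.totalDegree G ≠ 0 := by
  classical
  intro h
  obtain ⟨s, hs, hsd⟩ : ∃ s ∈ G.support, G.totalDegree = s.sum fun _ e => e := by
    unfold totalDegree
    exact Finset.exists_mem_eq_sup _ (support_nonempty.2 hG) _
  have h1 : coeff s (homogeneousComponent G.totalDegree G) = coeff s G := by
    rw [coeff_homogeneousComponent, if_pos]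
    rw [hsd]
    rfl
  rw [h, coeff_zero] at h1
  exact (mem_support_iff.1 hs) h1.symm

/-- a form of minimal degree vanishing at a point is irreducible -/
theorem prime_of_min {K Ω : Type} [Field K] [Field Ω] [Algebra K Ω] {σ : Type}
    (x : σ → Ω) {d : ℕ} {F : MvPolynomial σ K} (hF : F.IsHomogeneous d) (hF0 : F ≠ 0)
    (hFx : aeval x F = 0)
    (hmin : ∀ d' < d, ∀ G : MvPolynomial σ K, G.IsHomogeneous d' → aeval x G = 0 → G = 0) :
    Prime F := by
  have key : ∀ G H : MvPolynomial σ K, G ≠ 0 → H ≠ 0 → F = G * H →
      aeval x (homogeneousComponent G.totalDegree G) = 0 → IsUnit H := by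
    intro G H hG hH hFGH h1
    have hdeg : G.totalDegree + H.totalDegree = d := by
      rw [← totalDegree_mul_of_isDomain hG hH, ← hFGH]
      exact hF.totalDegree hF0
    have h2 : ¬ G.totalDegree < d := fun h3 => comp_top_ne hG
      (hmin _ h3 _ (homogeneousComponent_isHomogeneous _ _) h1)
    have h3 : H.totalDegree = 0 := by omega
    rw [totalDegree_eq_zero_iff_eq_C] at h3
    rw [h3]
    refine IsUnit.map C (isUnit_iff_ne_zero.2 ?_)
    intro h4
    rw [h4, C_0] at h3
    exact hH h3
  have hirr : Irreducible F := by
    constructor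
    · intro hu
      rw [isUnit_iff_eq_C_of_isReduced] at hu
      obtain ⟨r, hr, rfl⟩ := hu
      rw [aeval_C] at hFx
      have h1 := (map_eq_zero _).1 hFx
      exact hr.ne_zero h1
    · intro G H hFGH
      have hG : G ≠ 0 := by
        intro h
        rw [h, zero_mul] at hFGH
        exact hF0 hFGH
      have hH : H ≠ 0 := by
        intro h
        rw [h, mul_zero] at hFGH
        exact hF0 hFGH
      have h1 := top_mul (d := d) (by rw [← hFGH]; exact hF) hG hH
      rw [hFGH, h1, map_mul] at hFx
      rcases mul_eq_zero.1 hFx with h2 | h2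
      · exact Or.inr (key G H hG hH hFGH h2)
      · exact Or.inl (key H G hH hG (by rw [hFGH, mul_comm]) h2)
  exact hirr.prime

end Pool.Agent.H911.QD
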