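import Pool.Graph.R_pool_sql_team_seeded_63374d34.N254.SQ.Comp
import Pool.Graph.R_pool_sql_team_seeded_63374d34.N254.SQ.LocDefs2
import Pool.Graph.R_pool_sql_team_seeded_63374d34.N254.SQ.Locus
import Pool.Agent.H911.QD.Model

/-!
The birational model of a variety over a number field as a closed subset of an irreducible
hypersurface over `ℚ`.
-/

set_option autoImplicit false

namespace Pool.Agent.H911.QD

open MvPolynomial
open Pool.Agent.H911.QR (hatc hatc_adjoin hatc_aeval exists_basis homb homb_hom homb_eval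
  ind_of_generic)
open Pool.Agent.N254.SQ (comp_trdeg GenericPoint IsForm aeval_zero_of)
open Pool.Agent.W602.GT (coords SubVar)

theorem coords_affine {L : Type} [Field L] [Algebra ℂ L] {n : ℕ} (y : Fin (n + 1) → L)
    (a : Fin (n + 1)) (ha : y a ≠ 0) :
    coords ℂ y = IntermediateField.adjoin ℂ (Set.range fun j => y j / y a) := by
  apply le_antisymm
  · apply IntermediateField.adjoin_le_iff.2
    rintro _ ⟨i, j, hj, rfl⟩
    have h3 : ∀ k, y k / y a ∈ IntermediateField.adjoin ℂ (Set.range fun j => y j / y a) :=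
      fun k => IntermediateField.subset_adjoin ℂ _ ⟨k, rfl⟩
    have h4 : y i / y j = (y i / y a) / (y j / y a) := by
      rw [div_div_div_cancel_right₀ ha]
    rw [h4]
    exact div_mem (h3 i) (h3 j)
  · apply IntermediateField.adjoin_le_iff.2
    rintro _ ⟨j, rfl⟩
    exact IntermediateField.subset_adjoin ℂ _ ⟨j, a, ha, rfl⟩

/-- the linear projection with rational coefficients -/
noncomputable def proj {n w : ℕ} (lam : Fin (w + 1) → Fin (n + 1) → ℚ) {Ω : Type} [CommRing Ω]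
    [Algebra ℂ Ω] (x : Fin (n + 1) → Ω) : Fin (w + 1) → Ω :=
  fun i => ∑ j, algebraMap ℂ Ω (lam i j : ℂ) * x j

theorem proj_smul {n w : ℕ} (lam : Fin (w + 1) → Fin (n + 1) → ℚ) {Ω : Type} [Field Ω]
    [Algebra ℂ Ω] (c : Ω) (x : Fin (n + 1) → Ω) : proj lam (c • x) = c • proj lam x := by
  funext i
  unfold proj
  rw [Pi.smul_apply, smul_eq_mul, Finset.mul_sum]
  refine Finset.sum_congr rfl fun j _ => ?_
  rw [Pi.smul_apply, smul_eq_mul]
  ring

/-- the transcendence degree over `ℚ` of the generic point -/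
theorem trdeg_generic {k : Type} [Field k] [Algebra k ℂ]
    (hk : ∀ a : k, IsAlgebraic ℚ (algebraMap k ℂ a)) {n : ℕ}
    (S : Set (MvPolynomial (Fin (n + 1)) k)) (hS : ∀ p ∈ S, ∃ e, p.IsHomogeneous e)
    {L : Type} [Field L] [Algebra ℂ L] [Algebra ℚ L] [IsScalarTower ℚ ℂ L]
    {w : ℕ} (y : Fin (n + 1) → L) (hgp : GenericPoint S L w y) (b : Fin (n + 1)) (hb : y b ≠ 0) :
    Algebra.trdeg ℚ (Algebra.adjoin ℚ (Set.range fun j => y j / y b)) ≤ w := by
  obtain ⟨u, hu⟩ : ∃ u : Fin (n + 1) → L, u = fun j => y j / y b := ⟨_, rfl⟩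
  have hu' : u = (y b)⁻¹ • y := by
    rw [hu]
    funext j
    rw [Pi.smul_apply, smul_eq_mul, div_eq_inv_mul]
  rw [← hu]
  obtain ⟨σ, f, hf, hfb⟩ := exists_basis ℚ u
  rw [← hfb.cardinalMk_eq_trdeg]
  have h1 : AlgebraicIndependent ℚ (fun s => u (f s)) :=
    hfb.1.map' (f := (Algebra.adjoin ℚ (Set.range u)).val) Subtype.val_injective
  have fy : ∀ F : MvPolynomial (Fin (n + 1)) ℂ, IsForm F → (aeval u F = 0 ↔ aeval y F = 0) := by
    intro F hF
    rw [hu']
    exact aeval_zero_of hF (inv_ne_zero hb) y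
  have h2 : AlgebraicIndependent ℂ (fun s => u (f s)) := by
    refine ind_of_generic hk S hS u b (by rw [hu]; exact div_self hb) ?_ ?_ σ f h1
    · intro p hp
      obtain ⟨e, he⟩ := hS p hp
      rw [fy _ ⟨e, he.map _⟩]
      exact hgp.sub.mem ⟨p, hp⟩
    · intro F hF h3 x' hx'
      exact hgp.all F hF ((fy F hF).1 h3) x' hx'
  have h3 := h2.cardinalMk_le_trdeg
  rw [hgp.sub.dim] at h3
  exact h3

theorem exists_model {k : Type} [Field k] [Algebra k ℂ]
    (hk : ∀ a : k, IsAlgebraic ℚ (algebraMap k ℂ a)) {n : ℕ}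
    (S : Set (MvPolynomial (Fin (n + 1)) k)) (hS : ∀ p ∈ S, ∃ e, p.IsHomogeneous e)
    {L : Type} [Field L] [Algebra ℂ L] {w : ℕ} (y : Fin (n + 1) → L)
    (hgp : GenericPoint S L w y) :
    ∃ (lam : Fin (w + 1 + 1) → Fin (n + 1) → ℚ) (b : Fin (n + 1)) (e : ℕ)
      (F : MvPolynomial (Fin (w + 1 + 1)) ℚ), 1 ≤ e ∧ F.IsHomogeneous e ∧ Prime F ∧
      y b ≠ 0 ∧ (∀ (Ω : Type) [Field Ω] [Algebra ℂ Ω] (x : Fin (n + 1) → Ω), proj lam x 0 = x b) ∧
      coords ℂ (proj lam y) = ⊤ ∧ aeval (proj lam y) (map (algebraMap ℚ ℂ) F) = 0 := by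
  classical
  let _ : Algebra ℚ L := ((algebraMap ℂ L).comp (algebraMap ℚ ℂ)).toAlgebra
  have _i : IsScalarTower ℚ ℂ L := IsScalarTower.of_algebraMap_eq' rfl
  obtain ⟨b, hb⟩ : ∃ b, y b ≠ 0 := by
    by_contra hcon
    push Not at hcon
    exact hgp.sub.ne (funext hcon)
  obtain ⟨u, hu⟩ : ∃ u : Fin (n + 1) → L, u = fun j => y j / y b := ⟨_, rfl⟩
  have htop : IntermediateField.adjoin ℂ (Set.range u) = ⊤ := by
    rw [hu, ← coords_affine y b hb, hgp.sub.gen]
  -- a transcendence basis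
  obtain ⟨σ, f, hf, hfb⟩ := exists_basis ℂ u
  have hcard : Cardinal.mk σ = w := by
    rw [hfb.cardinalMk_eq_trdeg, ← comp_trdeg, htop]
    rw [(IntermediateField.topEquiv (F := ℂ) (E := L)).trdeg_eq, hgp.sub.dim]
  have hσ : Finite σ := Finite.of_injective f hf
  have hσw : Nonempty (Fin w ≃ σ) := by
    have h1 : Nat.card σ = w := by
      rw [Nat.card, hcard, Cardinal.toNat_natCast]
    exact ⟨(Finite.equivFinOfCardEq h1).symm⟩
  obtain ⟨ε⟩ := hσw
  obtain ⟨g, hg⟩ : ∃ g : Fin w → Fin (n + 1), g = f ∘ ε := ⟨_, rfl⟩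
  have hgi : AlgebraicIndependent ℂ (fun i => u (g i)) := by
    have h1 : AlgebraicIndependent ℂ (fun s => u (f s)) :=
      hfb.1.map' (f := (Algebra.adjoin ℂ (Set.range u)).val) Subtype.val_injective
    rw [hg]
    exact h1.comp ε ε.injective
  have hgb : IsTranscendenceBasis ℂ (fun i => u (g i)) := by
    refine hgi.isTranscendenceBasis_of_trdeg_le ?_ ?_
    · rw [hgp.sub.dim]
      exact Cardinal.natCast_lt_aleph0
    · rw [hgp.sub.dim]
      simp
  obtain ⟨M, hM⟩ : ∃ M : IntermediateField ℂ L, M = IntermediateField.adjoin ℂ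
    (Set.range fun i => u (g i)) := ⟨_, rfl⟩
  have hMalg : Algebra.IsAlgebraic M L := by
    rw [hM]
    exact hgb.isAlgebraic_field
  obtain ⟨c, hc⟩ := exists_theta u htop M hMalg
  obtain ⟨lam, hlam⟩ : ∃ lam : Fin (w + 1 + 1) → Fin (n + 1) → ℚ, lam =
    Fin.cons (Pi.single b 1) (Fin.snoc (fun i => Pi.single (g i) 1) c) := ⟨_, rfl⟩
  have hsingle : ∀ (Ω : Type) [Field Ω] [Algebra ℂ Ω] (x : Fin (n + 1) → Ω) (a : Fin (n + 1)),
      ∑ j, algebraMap ℂ Ω (((Pi.single a 1 : Fin (n + 1) → ℚ) j : ℚ) : ℂ) * x j = x a := by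
    intro Ω _ _ x a
    rw [Finset.sum_eq_single a]
    · simp
    · intro i _ hi
      simp [Pi.single_eq_of_ne hi]
    · intro h
      exact absurd (Finset.mem_univ a) h
  have hp0 : ∀ (Ω : Type) [Field Ω] [Algebra ℂ Ω] (x : Fin (n + 1) → Ω), proj lam x 0 = x b := by
    intro Ω _ _ x
    unfold proj
    rw [hlam, Fin.cons_zero]
    exact hsingle Ω x b
  have hpi : ∀ i : Fin w, proj lam y i.castSucc.succ = y (g i) := by
    intro i
    unfold proj
    rw [hlam, Fin.cons_succ, Fin.snoc_castSucc]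
    exact hsingle L y (g i)
  have hpl : proj lam y (Fin.last w).succ = ∑ j, algebraMap ℂ L (c j : ℂ) * y j := by
    unfold proj
    rw [hlam, Fin.cons_succ, Fin.snoc_last]
  have hy0 : proj lam y 0 ≠ 0 := by
    rw [hp0]
    exact hb
  have hcoords : coords ℂ (proj lam y) = ⊤ := by
    rw [coords_affine _ 0 hy0]
    apply hc
    · rw [hM, IntermediateField.adjoin_le_iff]
      rintro _ ⟨i, rfl⟩
      have h1 : u (g i) = proj lam y i.castSucc.succ / proj lam y 0 := by
        rw [hpi, hp0, hu]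
      simp only
      rw [h1]
      exact IntermediateField.subset_adjoin ℂ _ ⟨_, rfl⟩
    · have h1 : ∑ j, algebraMap ℂ L (c j : ℂ) * u j = proj lam y (Fin.last w).succ / proj lam y 0 := by
        rw [hpl, hp0, Finset.sum_div, hu]
        refine Finset.sum_congr rfl fun j _ => ?_
        simp only
        rw [mul_div_assoc]
      rw [h1]
      exact IntermediateField.subset_adjoin ℂ _ ⟨_, rfl⟩
  -- a rational equation
  have htr := trdeg_generic hk S hS y hgp b hb
  rw [← hu] at htr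
  obtain ⟨v, hv⟩ : ∃ v : Fin (w + 1) → L, v = fun i => proj lam y i.succ / y b := ⟨_, rfl⟩
  have hvmem : ∀ i, v i ∈ Algebra.adjoin ℚ (Set.range u) := by
    intro i
    have h1 : v i = ∑ j, algebraMap ℚ L (lam i.succ j) * u j := by
      rw [hv, hu]
      unfold proj
      simp only
      rw [Finset.sum_div]
      refine Finset.sum_congr rfl fun j _ => ?_
      rw [mul_div_assoc, IsScalarTower.algebraMap_apply ℚ ℂ L, eq_ratCast (algebraMap ℚ ℂ)]
    rw [h1]
    exact sum_mem fun j _ => mul_mem (Subalgebra.algebraMap_mem _ _)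
      (Algebra.subset_adjoin ⟨j, rfl⟩)
  have hvdep : ¬ AlgebraicIndependent ℚ v := by
    intro h1
    have h2 : AlgebraicIndependent ℚ (fun i => (⟨v i, hvmem i⟩ : Algebra.adjoin ℚ (Set.range u))) :=
      AlgebraicIndependent.of_comp (Algebra.adjoin ℚ (Set.range u)).val h1
    have h3 := h2.cardinalMk_le_trdeg.trans htr
    rw [Cardinal.mk_fin] at h3
    have : w + 1 ≤ w := by exact_mod_cast h3
    omega
  rw [algebraicIndependent_iff] at hvdep
  push Not at hvdep
  obtain ⟨P, hP, hP0⟩ := hvdep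
  obtain ⟨y1, hy1⟩ : ∃ y1 : Fin (w + 1 + 1) → L, y1 = proj lam y := ⟨_, rfl⟩
  obtain ⟨z1, hz1⟩ : ∃ z1 : Fin (w + 1 + 1) → L, z1 = (y b)⁻¹ • y1 := ⟨_, rfl⟩
  have hz10 : z1 0 = 1 := by
    rw [hz1, Pi.smul_apply, hy1, hp0, smul_eq_mul, inv_mul_cancel₀ hb]
  have hz1s : ∀ i, z1 (Fin.succ i) = v i := by
    intro i
    rw [hz1, Pi.smul_apply, hy1, hv, smul_eq_mul]
    simp only
    rw [div_eq_inv_mul]
  have hex : ∃ d : ℕ, ∃ F : MvPolynomial (Fin (w + 1 + 1)) ℚ, F ≠ 0 ∧ F.IsHomogeneous d ∧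
      aeval z1 F = 0 := by
    refine ⟨_, homb 0 (rename Fin.succ P), ?_, homb_hom _ _, ?_⟩
    · intro h
      have h1 := homb_eval (R := ℚ) (A := MvPolynomial (Fin (w + 1)) ℚ) (b := (0 : Fin (w + 1 + 1)))
        (Fin.cons 1 X) (Fin.cons_zero _ _) (rename Fin.succ P)
      rw [h, map_zero, aeval_rename] at h1
      have h2 : ((Fin.cons 1 X : Fin (w + 1 + 1) → MvPolynomial (Fin (w + 1)) ℚ) ∘ Fin.succ) = X := by
        funext i
        rw [Function.comp_apply, Fin.cons_succ]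
      rw [h2, aeval_X_left, AlgHom.id_apply] at h1
      exact hP0 h1.symm
    · rw [homb_eval z1 hz10, aeval_rename]
      have h2 : z1 ∘ Fin.succ = v := funext hz1s
      rw [h2]
      exact hP
  classical
  obtain ⟨F, hF0, hF, hFz⟩ := Nat.find_spec hex
  have hmin : ∀ d' < Nat.find hex, ∀ G : MvPolynomial (Fin (w + 1 + 1)) ℚ, G.IsHomogeneous d' →
      aeval z1 G = 0 → G = 0 := by
    intro d' hd' G hG hGz
    by_contra hG0
    exact Nat.find_min hex hd' ⟨G, hG0, hG, hGz⟩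
  have hprime := prime_of_min z1 hF hF0 hFz hmin
  refine ⟨lam, b, Nat.find hex, F, ?_, hF, hprime, hb, hp0, hcoords, ?_⟩
  · by_contra hcon
    have h0 : Nat.find hex = 0 := by omega
    rw [h0] at hF
    have h1 := hF.totalDegree hF0
    rw [totalDegree_eq_zero_iff_eq_C] at h1
    apply hprime.not_isUnit
    rw [h1]
    refine IsUnit.map C (isUnit_iff_ne_zero.2 ?_)
    intro h4
    rw [h4, C_0] at h1
    exact hF0 h1
  · have h1 : IsForm (map (algebraMap ℚ ℂ) F) := ⟨_, hF.map _⟩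
    have h2 : aeval z1 (map (algebraMap ℚ ℂ) F) = 0 := by
      rw [aeval_map_algebraMap]
      exact hFz
    rw [hz1, aeval_zero_of h1 (inv_ne_zero hb)] at h2
    rw [← hy1]
    exact h2

end Pool.Agent.H911.QD
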