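import Pool.Agent.H911.QD.Key

/-!
The key step for any type of exceptional sets.
-/

set_option autoImplicit false

namespace Pool.Agent.H911.QD

open MvPolynomial
open Pool.Agent.H911.QR (homb homb_hom homb_eval hatc hatc_adjoin hatc_aeval exists_basis map_val)
open Pool.Agent.N254.SQ (GenericPoint IsForm aeval_zero_of aeval_scale FiniteOff Component OnPoints
  SmoothOver powerFormOver hyp Smooth powerSum t_comp comp_trdeg leaves4 Fm t_idls Idl)
open Pool.Agent.W602.GT (coords SubVar GeneralType val)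

/-- KEY, with control of the dimension, for any ideal `I` which contains `A` -/
theorem key_ideal {n w N : ℕ} {k : Type} [Field k] [Algebra k ℂ]
    (S : Set (MvPolynomial (Fin (n + 1)) k))
    {L : Type} [Field L] [Algebra ℂ L] (y : Fin (n + 1) → L) (hw : 1 ≤ w)
    (hgp : GenericPoint S L w y) (hgt : GeneralType ℂ L w)
    (lam : Fin (w + 1 + 1) → Fin (n + 1) → ℚ) (b : Fin (n + 1)) (hb : y b ≠ 0)
    (hp0 : ∀ (Ω : Type) [Field Ω] [Algebra ℂ Ω] (x : Fin (n + 1) → Ω), proj lam x 0 = x b)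
    (hcoords : coords ℂ (proj lam y) = ⊤) (hN : w + 1 ≤ N) {e : ℕ}
    (F : MvPolynomial (Fin (w + 1 + 1)) ℚ) (hF : F.IsHomogeneous e) (hprime : Prime F)
    (hFy : aeval (proj lam y) (map (algebraMap ℚ ℂ) F) = 0)
    (A : MvPolynomial (Fin (N + 1)) ℂ) (hA : Prop1 hN F A)
    (I : MvPolynomial (Fin (N + 1)) ℂ → Prop) (hI : Idl I) (hIA : I A)
    (hno : ∀ (L' : Type) [Field L'] [Algebra ℂ L'] (w' : ℕ) (y' : Fin (N + 1) → L'), 1 ≤ w' →
      SubVar (fun _ : Unit => A) L' w' y' → GeneralType ℂ L' w' → ¬ Component I y') :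
    ∃ G : MvPolynomial (Fin (N + 1)) ℂ, IsForm G ∧ I G ∧
      aeval (ext N (proj lam y)) G ≠ 0 := by
  by_contra hcon
  push Not at hcon
  obtain ⟨y2, hy2⟩ : ∃ y2 : Fin (N + 1) → L, y2 = ext N (proj lam y) := ⟨_, rfl⟩
  rw [← hy2] at hcon
  have hy20 : y2 0 ≠ 0 := by
    rw [hy2, ext_zero, hp0]
    exact hb
  have hy2ne : y2 ≠ 0 := by
    intro h
    apply hy20
    rw [h]
    rfl
  have hy2e : ∀ j, y2 (emb hN j) = proj lam y j := by
    intro j
    rw [hy2]
    exact ext_apply hN (proj lam y) j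
  have hy2z : ∀ i : Fin (N + 1), w + 1 < (i : ℕ) → y2 i = 0 := by
    intro i hi
    rw [hy2]
    unfold ext
    rw [dif_neg (by omega)]
  have hcoords2 : coords ℂ y2 = ⊤ := by
    rw [eq_top_iff, ← hcoords]
    have h1 : proj lam y 0 ≠ 0 := by
      rw [hp0]
      exact hb
    rw [coords_affine _ 0 h1, coords_affine _ 0 hy20, IntermediateField.adjoin_le_iff]
    rintro _ ⟨j, rfl⟩
    have h2 : proj lam y j / proj lam y 0 = y2 (emb hN j) / y2 0 := by
      rw [hy2e, hy2, ext_zero]
    simp only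
    rw [h2]
    exact IntermediateField.subset_adjoin ℂ _ ⟨_, rfl⟩
  have hyA : aeval y2 A = 0 := by
    refine hA.van L y2 hy2z ?_
    have h1 : (fun j => y2 (emb hN j)) = proj lam y := funext hy2e
    rw [h1]
    exact hFy
  have hgen2 : Pool.Agent.N254.SQ.Gen L w y2 := ⟨hy2ne, hcoords2, hgp.sub.dim⟩
  rcases t_comp N I hI L w y2 hgen2
    (fun G hG hI => hcon G hG hI) with ⟨H, hH, hH0, hHI⟩ |
    ⟨L', iF, iA, w', y', hgen, hw', hI', hle, ⟨G, hG, hG0, hG1⟩, hcomp⟩
  · exact hno L w y2 hw ⟨hy2ne, fun _ => hyA, hcoords2, hgp.sub.dim⟩ hgt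
      ⟨fun G hG hI => hcon G hG hI, H, hH, hH0, hHI⟩
  · have hsub : SubVar (fun _ : Unit => A) L' w' y' :=
      ⟨hgen.ne, fun _ => hI' A hA.form hIA, hgen.gen, hgen.dim⟩
    have hco : Component I y' := ⟨hI', hcomp⟩
    rcases hA.sub L' w' y' hw' hsub with h | ⟨hz, hFz⟩
    · exact hno L' w' y' hw' hsub h hco
    · have hy'0 : y' 0 ≠ 0 := by
        intro h1
        apply hy20
        have h2 := hle (X 0) ⟨1, isHomogeneous_X ℂ 0⟩ (by rw [aeval_X, h1])
        rwa [aeval_X] at h2
      let _ : Algebra ℚ L' := ((algebraMap ℂ L').comp (algebraMap ℚ ℂ)).toAlgebra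
      have _i : IsScalarTower ℚ ℂ L' := IsScalarTower.of_algebraMap_eq' rfl
      obtain ⟨x1, hx1⟩ : ∃ x1 : Fin (N + 1) → L', x1 = (y' 0)⁻¹ • y' := ⟨_, rfl⟩
      obtain ⟨z1, hz1⟩ : ∃ z1 : Fin (N + 1) → L, z1 = (y2 0)⁻¹ • y2 := ⟨_, rfl⟩
      have hx10 : x1 0 = 1 := by
        rw [hx1, Pi.smul_apply, smul_eq_mul, inv_mul_cancel₀ hy'0]
      have hz10 : z1 0 = 1 := by
        rw [hz1, Pi.smul_apply, smul_eq_mul, inv_mul_cancel₀ hy20]
      have fx : ∀ P, IsForm P → (aeval x1 P = 0 ↔ aeval y' P = 0) := by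
        intro P hP
        rw [hx1]
        exact aeval_zero_of hP (inv_ne_zero hy'0) y'
      have fz : ∀ P, IsForm P → (aeval z1 P = 0 ↔ aeval y2 P = 0) := by
        intro P hP
        rw [hz1]
        exact aeval_zero_of hP (inv_ne_zero hy20) y2
      obtain ⟨ψ, hψ, hψ2⟩ := spec_map (K := ℂ) x1 z1 (by
        intro P hP
        have h1 : IsForm (homb 0 P) := ⟨_, homb_hom 0 P⟩
        rw [← homb_eval x1 hx10, fx _ h1] at hP
        rw [← homb_eval z1 hz10, fz _ h1]
        exact hle _ h1 hP)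
      -- the transcendence degrees
      have hx1z : ∀ i : Fin (N + 1), w + 1 < (i : ℕ) → x1 i = 0 := by
        intro i hi
        rw [hx1, Pi.smul_apply, hz i hi, smul_zero]
      have h1 : Algebra.trdeg ℂ (Algebra.adjoin ℂ (Set.range x1)) ≤ (w : Cardinal) := by
        refine (trd_le x1).trans ?_
        rw [range_eq hN x1 hx1z]
        have h2 : x1 (emb hN 0) = 1 := hx10
        have h3 : aeval (fun j => x1 (emb hN j)) F = 0 := by
          rw [← map_val]
          have h4 : (fun j => x1 (emb hN j)) = (y' 0)⁻¹ • fun j => y' (emb hN j) := by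
            funext j
            rw [hx1]
            rfl
          rw [h4, aeval_zero_of ⟨e, hF.map _⟩ (inv_ne_zero hy'0)]
          exact hFz
        obtain ⟨k', hk', hk'w⟩ := hyp_trdeg hF hprime (fun j => x1 (emb hN j)) 0 h2 h3
        rw [hk']
        have : k' ≤ w := by omega
        exact_mod_cast this
      have h2 : Algebra.trdeg ℂ (Algebra.adjoin ℂ (Set.range z1)) = (w : Cardinal) := by
        rw [← comp_trdeg]
        have h3 : Set.range z1 = Set.range fun j => y2 j / y2 0 := by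
          congr 1
          rw [hz1]
          funext j
          rw [Pi.smul_apply, smul_eq_mul, div_eq_inv_mul]
        rw [h3, ← coords_affine _ 0 hy20, hcoords2]
        rw [(IntermediateField.topEquiv (F := ℂ) (E := L)).trdeg_eq, hgp.sub.dim]
      have hinj := surj_inj ψ hψ (h1.trans_lt Cardinal.natCast_lt_aleph0) (h1.trans_eq h2.symm)
      apply hG1
      rw [← fx G hG]
      have h3 : aeval (hatc ℂ x1) G = 0 := by
        apply hinj
        rw [hψ2, map_zero]
        apply Subtype.ext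
        rw [hatc_aeval, (fz G hG).2 hG0]
        rfl
      rw [← hatc_aeval, h3]
      rfl

/-- the rational points of a variety and of a hypersurface which contains a birational model -/
theorem pull_points {n w : ℕ} (lam : Fin (w + 1 + 1) → Fin (n + 1) → ℚ) {k : Type} [Field k]
    [Algebra k ℂ] (S : Set (MvPolynomial (Fin (n + 1)) k)) (K : Subfield ℂ)
    {L : Type} [Field L] [Algebra ℂ L] (y : Fin (n + 1) → L) (b : Fin (n + 1)) (hb : y b ≠ 0)
    (hp0 : ∀ (Ω : Type) [Field Ω] [Algebra ℂ Ω] (x : Fin (n + 1) → Ω), proj lam x 0 = x b)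
    (N : ℕ) (A G : MvPolynomial (Fin (N + 1)) ℂ)
    (hA : ∀ x : Fin (n + 1) → ℂ, (∀ p ∈ S, aeval x p = 0) → eval (ext N (proj lam x)) A = 0)
    (hG : IsForm G) (hGA : OnPoints K {A} G) (hyG : aeval (ext N (proj lam y)) G ≠ 0) :
    ∃ G' : MvPolynomial (Fin (n + 1)) ℂ, IsForm G' ∧ aeval y G' ≠ 0 ∧
      OnPoints K (map (algebraMap k ℂ) '' S) G' := by
  obtain ⟨eG, hGe⟩ := hG
  refine ⟨ppull lam N G * X b, ⟨eG + 1, (ppull_hom lam N hGe).mul (isHomogeneous_X ℂ b)⟩, ?_, ?_⟩
  · rw [map_mul, ppull_eval, aeval_X]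
    exact mul_ne_zero hyG hb
  · intro x hx hxK hxS
    rw [map_mul, eval_X]
    by_cases hxb : x b = 0
    · rw [hxb, mul_zero]
    · have h1 : eval (ext N (proj lam x)) G = 0 := by
        refine hGA _ ?_ ?_ ?_
        · intro h
          have h2 := congrFun h 0
          rw [ext_zero, hp0] at h2
          exact hxb h2
        · intro i
          unfold ext
          split_ifs
          · unfold proj
            refine sum_mem fun j _ => mul_mem ?_ (hxK j)
            change ((lam _ j : ℚ) : ℂ) ∈ K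
            exact SubfieldClass.ratCast_mem K _
          · exact zero_mem K
        · intro p hp
          rw [Set.mem_singleton_iff] at hp
          rw [hp]
          refine hA x fun p hp => ?_
          have h3 := hxS _ ⟨p, hp, rfl⟩
          rw [eval_map] at h3
          exact h3
      have h2 := ppull_eval lam N G x
      have h3 : eval x (ppull lam N G) = 0 := h2.trans h1
      rw [h3, zero_mul]

end Pool.Agent.H911.QD
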